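import Mathlib

/-!
# Rings with a splitting, and the inverse of the splitting homomorphism

A splitting of a commutative ring `A` is a ring homomorphism `E : A → A[X]`,
`E f = ∑ k, qp k f X^k` with `qp 0 f = f`, which lowers a degree filtration. The ring of
quasisymmetric functions has two of them: splitting off the first or the last variable.
-/

open Finset Polynomial

namespace Pool.Agent.Lib.MP_5bc52d_co

/-- a splitting -/
structure Splitting (A : Type*) [CommRing A] where
  D : ℕ → A → Prop
  exists_D : ∀ f, ∃ N, D N f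
  qp : ℕ → A → A
  qp_zero : ∀ f, qp 0 f = f
  qp_one : ∀ k, k ≠ 0 → qp k 1 = 0
  qp_add : ∀ k f g, qp k (f + g) = qp k f + qp k g
  qp_mul : ∀ k f g, qp k (f * g) = ∑ p ∈ antidiagonal k, qp p.1 f * qp p.2 g
  qp_vanish : ∀ N k f, D N f → N < k → qp k f = 0
  qp_D : ∀ N k f, D N f → D (N - k) (qp k f)
  unit : ∀ f, f ≠ 0 → (∀ k, 1 ≤ k → qp k f = 0) → IsUnit f

namespace Splitting

variable {A : Type*} [CommRing A] (S : Splitting A)

/-- `f ↦ ∑ k, qp k f X^k` -/
noncomputable def Efun (f : A) : A[X] :=
  ∑ k ∈ range ((S.exists_D f).choose + 1), monomial k (S.qp k f)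

theorem coeff_Efun (f : A) (k : ℕ) : (S.Efun f).coeff k = S.qp k f := by
  rw [Efun, finsetSum_coeff]
  simp only [coeff_monomial]
  rw [Finset.sum_ite_eq']
  split_ifs with h
  · rfl
  · rw [Finset.mem_range] at h
    exact (S.qp_vanish _ _ _ (S.exists_D f).choose_spec (by omega)).symm

theorem qp_zero' (k : ℕ) : S.qp k 0 = 0 := by
  have := S.qp_add k 0 0
  rw [add_zero] at this
  simpa using this

/-- the splitting homomorphism -/
noncomputable def E : A →+* A[X] where
  toFun := S.Efun
  map_one' := by
    ext1 k
    rw [coeff_Efun, coeff_one]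
    by_cases hk : k = 0
    · subst hk; simp [S.qp_zero]
    · rw [if_neg hk]
      exact S.qp_one k hk
  map_mul' f g := by
    ext1 k
    rw [coeff_Efun, coeff_mul, S.qp_mul]
    simp only [coeff_Efun]
  map_zero' := by
    ext1 k
    rw [coeff_Efun, coeff_zero]
    exact S.qp_zero' k
  map_add' f g := by
    ext1 k
    rw [coeff_Efun, coeff_add, coeff_Efun, coeff_Efun, S.qp_add]

theorem coeff_E (f : A) (k : ℕ) : (S.E f).coeff k = S.qp k f := S.coeff_Efun f k

/-- the extension of `E` to polynomials, identifying the two variables -/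
noncomputable def Ehat : A[X] →+* A[X] := Polynomial.eval₂RingHom S.E X

theorem Ehat_C (f : A) : S.Ehat (C f) = S.E f := by
  simp [Ehat]

theorem Ehat_X : S.Ehat X = X := by
  simp [Ehat]

theorem coeff_zero_Ehat (p : A[X]) : (S.Ehat p).coeff 0 = p.coeff 0 := by
  have h3 : p = C (p.coeff 0) + X * p.divX := by
    rw [mul_comm]; rw [add_comm]; exact (Polynomial.divX_mul_X_add p).symm
  conv_lhs => rw [h3]
  rw [map_add, map_mul, Ehat_C, Ehat_X, coeff_add, coeff_E, S.qp_zero]
  simp

theorem Ehat_injective : Function.Injective S.Ehat := by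
  rw [injective_iff_map_eq_zero]
  intro a ha
  by_contra hne
  set k := a.natTrailingDegree with hk
  have h1 : (S.Ehat a).coeff k = a.coeff k := by
    obtain ⟨b, hb⟩ : ∃ b, a = b * X ^ k := by
      obtain ⟨b, hb⟩ := Polynomial.X_pow_dvd_iff.mpr
        (fun d hd => Polynomial.coeff_eq_zero_of_lt_natTrailingDegree hd : ∀ d < k, a.coeff d = 0)
      exact ⟨b, by rw [mul_comm]; exact hb⟩
    rw [hb, map_mul, map_pow, Ehat_X]
    have h2 : ∀ q : A[X], (q * X ^ k).coeff k = q.coeff 0 := by
      intro q
      have := Polynomial.coeff_mul_X_pow q k 0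
      simpa using this
    rw [h2, h2, coeff_zero_Ehat]
  rw [ha, coeff_zero] at h1
  have h2 : a.coeff k = a.trailingCoeff := rfl
  rw [h2] at h1
  exact hne (Polynomial.trailingCoeff_eq_zero.mp h1.symm)

theorem exists_Ehat_eq (f : A) : ∃ p : A[X], S.Ehat p = C f := by
  suffices h : ∀ N : ℕ, ∀ f : A, S.D N f → ∃ p : A[X], S.Ehat p = C f by
    obtain ⟨N, hN⟩ := S.exists_D f
    exact h N f hN
  intro N
  induction N using Nat.strong_induction_on with
  | _ N ih =>
    intro f hf
    have hE : S.E f = C f + ∑ k ∈ range N, monomial (k + 1) (S.qp (k + 1) f) := by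
      ext1 k
      rw [coeff_E, coeff_add, finsetSum_coeff]
      simp only [coeff_monomial]
      cases k with
      | zero => simp [S.qp_zero]
      | succ k =>
        rw [coeff_C, if_neg (by omega), zero_add]
        by_cases hk : k < N
        · rw [Finset.sum_eq_single k]
          · simp
          · intro b _ hb; rw [if_neg]; omega
          · intro h; exact absurd (Finset.mem_range.mpr hk) h
        · rw [Finset.sum_eq_zero]
          · exact S.qp_vanish _ _ _ hf (by omega)
          · intro b hb
            rw [Finset.mem_range] at hb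
            rw [if_neg]; omega
    have hch : ∀ k : ℕ, ∃ p : A[X], k < N → S.Ehat p = C (S.qp (k + 1) f) := by
      intro k
      by_cases hk : k < N
      · obtain ⟨p, hp⟩ := ih (N - (k + 1)) (by omega) (S.qp (k + 1) f) (S.qp_D _ _ _ hf)
        exact ⟨p, fun _ => hp⟩
      · exact ⟨0, fun h => absurd h hk⟩
    choose p hp using hch
    refine ⟨C f - ∑ k ∈ range N, p k * X ^ (k + 1), ?_⟩
    rw [map_sub, Ehat_C, hE, map_sum]
    have : ∑ k ∈ range N, S.Ehat (p k * X ^ (k + 1)) =
        ∑ k ∈ range N, monomial (k + 1) (S.qp (k + 1) f) := by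
      apply Finset.sum_congr rfl
      intro k hk
      rw [map_mul, map_pow, Ehat_X, hp k (Finset.mem_range.mp hk), C_mul_X_pow_eq_monomial]
    rw [this]
    ring

/-- the inverse splitting: `Ehat (N f) = C f` -/
noncomputable def N : A →+* A[X] where
  toFun f := (S.exists_Ehat_eq f).choose
  map_one' := S.Ehat_injective (by rw [(S.exists_Ehat_eq 1).choose_spec, C_1, map_one])
  map_mul' f g := S.Ehat_injective (by
    rw [(S.exists_Ehat_eq (f * g)).choose_spec, C_mul, S.Ehat.map_mul,
      (S.exists_Ehat_eq f).choose_spec, (S.exists_Ehat_eq g).choose_spec])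
  map_zero' := S.Ehat_injective (by rw [(S.exists_Ehat_eq 0).choose_spec, C_0, map_zero])
  map_add' f g := S.Ehat_injective (by
    rw [(S.exists_Ehat_eq (f + g)).choose_spec, C_add, S.Ehat.map_add,
      (S.exists_Ehat_eq f).choose_spec, (S.exists_Ehat_eq g).choose_spec])

theorem Ehat_N (f : A) : S.Ehat (S.N f) = C f := (S.exists_Ehat_eq f).choose_spec

theorem N_eq {f : A} {p : A[X]} (h : S.Ehat p = C f) : S.N f = p :=
  S.Ehat_injective (by rw [Ehat_N, h])

theorem coeff_zero_N (f : A) : (S.N f).coeff 0 = f := by
  rw [← coeff_zero_Ehat, Ehat_N]; simp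

/-- the extension of `N` to polynomials -/
noncomputable def Nhat : A[X] →+* A[X] := Polynomial.eval₂RingHom S.N X

theorem Ehat_Nhat (p : A[X]) : S.Ehat (S.Nhat p) = p := by
  have : S.Ehat.comp S.Nhat = RingHom.id _ := by
    apply Polynomial.ringHom_ext
    · intro f
      simp [Nhat, Ehat_N]
    · simp [Nhat, Ehat_X]
  exact congrArg (fun g => g p) this

theorem Nhat_E (f : A) : S.Nhat (S.E f) = C f := by
  apply S.Ehat_injective
  rw [Ehat_Nhat, Ehat_C]

/-- put `X = λ` in the coefficients of a polynomial in a new variable -/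
noncomputable def inner : A[X] →+* A[X][X] := Polynomial.mapRingHom C

/-- put `X = c λ` -/
noncomputable def scaled : A[X] →+* A[X][X] :=
  Polynomial.eval₂RingHom ((C : A[X] →+* A[X][X]).comp (C : A →+* A[X])) (C X * X)

/-- `f ↦ f(-cλ, λ, X)` -/
noncomputable def Theta₁ : A →+* A[X][X] :=
  (Polynomial.eval₂RingHom (inner.comp S.E) (C X * X)).comp S.N

/-- `f ↦ f(λ, -cλ, X)` -/
noncomputable def Theta₂ : A →+* A[X][X] :=
  (Polynomial.eval₂RingHom (scaled.comp S.N) X).comp S.E

theorem inner_C (a : A) : inner (C a) = C (C a) := by simp [inner]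

theorem inner_X : inner (X : A[X]) = X := by simp [inner]

theorem scaled_C (a : A) : scaled (C a) = C (C a) := by simp [scaled]

theorem scaled_X : scaled (X : A[X]) = C X * X := by simp [scaled]

theorem ev_inner (t : A) (p : A[X]) : (inner p).map (Polynomial.evalRingHom t) = p := by
  have : (Polynomial.mapRingHom (Polynomial.evalRingHom t)).comp inner = RingHom.id A[X] := by
    apply Polynomial.ringHom_ext
    · intro f; simp [inner]
    · simp [inner]
  exact congrArg (fun g => g p) this

theorem ev_one_scaled (p : A[X]) : (scaled p).map (Polynomial.evalRingHom 1) = p := by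
  have : (Polynomial.mapRingHom (Polynomial.evalRingHom (1 : A))).comp scaled =
      RingHom.id A[X] := by
    apply Polynomial.ringHom_ext
    · intro f; simp [scaled]
    · simp [scaled]
  exact congrArg (fun g => g p) this

theorem ev_zero_scaled (p : A[X]) :
    (scaled p).map (Polynomial.evalRingHom 0) = C (p.coeff 0) := by
  have : (Polynomial.mapRingHom (Polynomial.evalRingHom (0 : A))).comp scaled =
      (C : A →+* A[X]).comp (Polynomial.evalRingHom 0) := by
    apply Polynomial.ringHom_ext
    · intro f; simp [scaled]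
    · simp [scaled]
  have h := congrArg (fun g => g p) this
  simp only [RingHom.comp_apply] at h
  change (scaled p).map _ = _ at h
  rw [h, Polynomial.coe_evalRingHom, Polynomial.coeff_zero_eq_eval_zero]

theorem ev_one_Theta₁ (f : A) : (S.Theta₁ f).map (Polynomial.evalRingHom 1) = C f := by
  have : (Polynomial.mapRingHom (Polynomial.evalRingHom (1 : A))).comp
      (Polynomial.eval₂RingHom (inner.comp S.E) (C X * X)) = S.Ehat := by
    apply Polynomial.ringHom_ext
    · intro a
      simp only [RingHom.comp_apply, coe_eval₂RingHom, eval₂_C, Ehat_C]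
      exact ev_inner 1 (S.E a)
    · simp [Ehat_X]
  have h := congrArg (fun g => g (S.N f)) this
  rw [Ehat_N] at h
  exact h

theorem ev_zero_Theta₁ (f : A) : (S.Theta₁ f).map (Polynomial.evalRingHom 0) = S.E f := by
  have : (Polynomial.mapRingHom (Polynomial.evalRingHom (0 : A))).comp
      (Polynomial.eval₂RingHom (inner.comp S.E) (C X * X)) =
      S.E.comp (Polynomial.evalRingHom 0) := by
    apply Polynomial.ringHom_ext
    · intro a
      simp only [RingHom.comp_apply, coe_eval₂RingHom, eval₂_C, coe_evalRingHom, eval_C]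
      exact ev_inner 0 (S.E a)
    · simp
  have h := congrArg (fun g => g (S.N f)) this
  simp only [RingHom.comp_apply, coe_evalRingHom, ← Polynomial.coeff_zero_eq_eval_zero,
    coeff_zero_N] at h
  exact h

theorem ev_one_Theta₂ (f : A) : (S.Theta₂ f).map (Polynomial.evalRingHom 1) = C f := by
  have : (Polynomial.mapRingHom (Polynomial.evalRingHom (1 : A))).comp
      (Polynomial.eval₂RingHom (scaled.comp S.N) X) = S.Nhat := by
    apply Polynomial.ringHom_ext
    · intro a
      simp only [RingHom.comp_apply, coe_eval₂RingHom, eval₂_C, Nhat]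
      exact ev_one_scaled (S.N a)
    · simp [Nhat]
  have h := congrArg (fun g => g (S.E f)) this
  rw [Nhat_E] at h
  exact h

theorem ev_zero_Theta₂ (f : A) : (S.Theta₂ f).map (Polynomial.evalRingHom 0) = S.E f := by
  have : (Polynomial.mapRingHom (Polynomial.evalRingHom (0 : A))).comp
      (Polynomial.eval₂RingHom (scaled.comp S.N) X) = RingHom.id _ := by
    apply Polynomial.ringHom_ext
    · intro a
      simp only [RingHom.comp_apply, coe_eval₂RingHom, eval₂_C, RingHom.id_apply]
      exact (ev_zero_scaled (S.N a)).trans (by rw [coeff_zero_N])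
    · simp
  exact congrArg (fun g => g (S.E f)) this

end Splitting

end Pool.Agent.Lib.MP_5bc52d_co
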