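import Mathlib
import Pool.Agent.Lib.MP_5bc52d_co.Ring

/-!
# An abstract irreducibility criterion
-/

open Finset Polynomial

namespace Pool.Agent.Lib.MP_5bc52d_co

namespace Splitting

variable {A : Type*} [CommRing A] [IsDomain A] (S : Splitting A)

/-- If `T : A → A[c][λ]` is a ring homomorphism which is constant in `λ` at `c = 1` and is the
splitting homomorphism at `c = 0`, and the top coefficient of `T G` in `λ` vanishes exactly to
first order at `c = 1`, then `G` is irreducible. -/
theorem irreducible_of_top (T : A →+* A[X][X])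
    (h1 : ∀ f, (T f).map (Polynomial.evalRingHom 1) = C f)
    (h0 : ∀ f, (T f).map (Polynomial.evalRingHom 0) = S.E f)
    (G : A) (n : ℕ) (hn : 1 ≤ n) (h : A) (hh : h ≠ 0) (s : ℕ)
    (hdeg : ∀ m, n < m → (T G).coeff m = 0)
    (hlead : (T G).coeff n = (-X) ^ s * (1 - X) * C h) : Irreducible G := by
  have hpos : ∀ f : A, f ≠ 0 → ¬ IsUnit f → 1 ≤ (T f).natDegree := by
    intro f hf hu
    by_contra hc
    apply hu
    apply S.unit f hf
    intro k hk
    rw [← S.coeff_E, ← h0, coeff_map,
      Polynomial.coeff_eq_zero_of_natDegree_lt (by omega), map_zero]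
  have hvan : ∀ f : A, 1 ≤ (T f).natDegree → (T f).leadingCoeff.eval 1 = 0 := by
    intro f hf
    have h2 := congrArg (fun p => p.coeff (T f).natDegree) (h1 f)
    simp only [coeff_map, coeff_C] at h2
    rw [if_neg (by omega)] at h2
    exact h2
  have hX1 : (1 - X : A[X]) ≠ 0 := by
    intro h0
    have := congrArg (fun p => p.coeff 1) h0
    simp [coeff_one] at this
  have hXs : ((-X) ^ s : A[X]) ≠ 0 := pow_ne_zero _ (neg_ne_zero.mpr X_ne_zero)
  have hlead0 : (T G).coeff n ≠ 0 := by
    rw [hlead]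
    exact mul_ne_zero (mul_ne_zero hXs hX1) (C_ne_zero.mpr hh)
  have hnd : (T G).natDegree = n := by
    apply le_antisymm
    · rw [Polynomial.natDegree_le_iff_coeff_eq_zero]
      exact fun m hm => hdeg m hm
    · exact Polynomial.le_natDegree_of_ne_zero hlead0
  have hGne : G ≠ 0 := by
    rintro rfl
    rw [map_zero] at hlead0
    exact hlead0 (by simp)
  constructor
  · rintro ⟨u, rfl⟩
    have h2 : T u * T (↑u⁻¹ : A) = 1 := by rw [← map_mul, Units.mul_inv, map_one]
    have h3 := congrArg Polynomial.natDegree h2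
    have hne1 : T u ≠ 0 := fun h0 => by rw [h0] at h2; simp at h2
    have hne2 : T (↑u⁻¹ : A) ≠ 0 := fun h0 => by rw [h0] at h2; simp at h2
    rw [Polynomial.natDegree_mul hne1 hne2, Polynomial.natDegree_one] at h3
    omega
  · intro f g hfg
    by_contra hcon
    rw [not_or] at hcon
    obtain ⟨hfu, hgu⟩ := hcon
    have hf0 : f ≠ 0 := by rintro rfl; rw [zero_mul] at hfg; exact hGne hfg
    have hg0 : g ≠ 0 := by rintro rfl; rw [mul_zero] at hfg; exact hGne hfg
    have hla := hvan f (hpos f hf0 hfu)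
    have hlb := hvan g (hpos g hg0 hgu)
    have hL : (-X) ^ s * (1 - X) * C h = (T f).leadingCoeff * (T g).leadingCoeff := by
      rw [← Polynomial.leadingCoeff_mul, ← map_mul, ← hfg, ← hlead, ← hnd]
      rfl
    obtain ⟨a', ha'⟩ := Polynomial.dvd_iff_isRoot.mpr hla
    obtain ⟨b', hb'⟩ := Polynomial.dvd_iff_isRoot.mpr hlb
    have hX1' : (X - C 1 : A[X]) ≠ 0 := Polynomial.X_sub_C_ne_zero 1
    have h1 : (-X) ^ s * C h * (-1) = (X - C 1) * (a' * b') := by
      apply mul_left_cancel₀ hX1'
      rw [ha', hb'] at hL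
      rw [C_1] at hL ⊢
      linear_combination hL
    have h2 := congrArg (Polynomial.eval 1) h1
    simp only [eval_mul, eval_pow, eval_neg, eval_X, eval_C, eval_sub, eval_one, sub_self,
      zero_mul] at h2
    have h3 : ((-1 : A) ^ s) ≠ 0 := pow_ne_zero _ (neg_ne_zero.mpr one_ne_zero)
    have h4 : (-1 : A) ≠ 0 := neg_ne_zero.mpr one_ne_zero
    exact mul_ne_zero (mul_ne_zero h3 hh) h4 h2

end Splitting

end Pool.Agent.Lib.MP_5bc52d_co
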