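import Mathlib
import Pool.Agent.Lib.MP_5bc52d_co.Crit

/-!
# The combinatorial part of the criterion, for a finite strict order with a labelling
-/

open Finset Polynomial

set_option linter.unusedSectionVars false

namespace Pool.Agent.Lib.MP_5bc52d_co

variable {P : Type*} [Fintype P] [DecidableEq P]

/-- `I` is an initial part of `U` for `r`, and `ω` increases along `r` inside `I` -/
def Wk (r : P → P → Prop) (ω : P → ℤ) (U I : Finset P) : Prop :=
  I ⊆ U ∧ ∀ a ∈ U, ∀ b ∈ I, r a b → a ∈ I ∧ ω a < ω b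

open Classical in
/-- first a part where `ω` decreases, then a part where it increases -/
noncomputable def pairs (r : P → P → Prop) (ω : P → ℤ) (U : Finset P) :
    Finset (Finset P × Finset P) :=
  (U.powerset ×ˢ U.powerset).filter (fun p => Wk r (-ω) U p.1 ∧ Wk r ω (U \ p.1) p.2)

theorem mem_pairs {r : P → P → Prop} {ω : P → ℤ} {U A B : Finset P} :
    (A, B) ∈ pairs r ω U ↔ Wk r (-ω) U A ∧ Wk r ω (U \ A) B := by
  classical
  rw [pairs, Finset.mem_filter, Finset.mem_product, Finset.mem_powerset, Finset.mem_powerset]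
  constructor
  · exact fun h => h.2
  · intro h
    exact ⟨⟨h.1.1, h.2.1.trans Finset.sdiff_subset⟩, h⟩

open Classical in
/-- the largest initial part on which `ω` has no peak along `r`-chains -/
noncomputable def JJ (r : P → P → Prop) (ω : P → ℤ) : Finset P :=
  univ.filter (fun p => ∀ x y z, r x y → r y z → (r z p ∨ z = p) → ω x < ω y → ω y < ω z)

theorem mem_JJ {r : P → P → Prop} {ω : P → ℤ} {p : P} :
    p ∈ JJ r ω ↔ ∀ x y z, r x y → r y z → (r z p ∨ z = p) → ω x < ω y → ω y < ω z := by
  classical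
  simp [JJ]

/-- `e` is a local minimum of `ω` on `J` -/
def LocMin (r : P → P → Prop) (ω : P → ℤ) (J : Finset P) (e : P) : Prop :=
  e ∈ J ∧ ∀ x ∈ J, (r x e ∨ r e x) → ω e < ω x

section
variable {r : P → P → Prop} {ω : P → ℤ}

theorem JJ_down (ht : ∀ x y z, r x y → r y z → r x z) {a b : P} (hb : b ∈ JJ r ω)
    (hab : r a b) : a ∈ JJ r ω := by
  rw [mem_JJ] at hb ⊢
  intro x y z hxy hyz hza
  apply hb x y z hxy hyz
  rcases hza with h | h
  · exact Or.inl (ht _ _ _ h hab)
  · exact Or.inl (h ▸ hab)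

theorem pair_disjoint {U A B : Finset P} (h : (A, B) ∈ pairs r ω U) : Disjoint A B := by
  rw [mem_pairs] at h
  exact (Finset.disjoint_of_subset_left h.2.1 Finset.sdiff_disjoint).symm

theorem pair_subset_JJ {A B : Finset P} (h : (A, B) ∈ pairs r ω univ) :
    A ∪ B ⊆ JJ r ω := by
  rw [mem_pairs] at h
  obtain ⟨⟨-, hA⟩, ⟨hB1, hB⟩⟩ := h
  have hdown : ∀ a b, b ∈ A ∪ B → r a b → a ∈ A ∪ B := by
    intro a b hb hab
    rw [Finset.mem_union] at hb ⊢
    rcases hb with hb | hb
    · exact Or.inl (hA a (mem_univ _) b hb hab).1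
    · by_cases ha : a ∈ A
      · exact Or.inl ha
      · exact Or.inr (hB a (by simp [ha]) b hb hab).1
  intro p hp
  rw [mem_JJ]
  intro x y z hxy hyz hzp hlt
  have hz : z ∈ A ∪ B := by
    rcases hzp with h | h
    · exact hdown _ _ hp h
    · exact h ▸ hp
  have hy : y ∈ A ∪ B := hdown _ _ hz hyz
  have hyA : y ∉ A := by
    intro hy
    have := (hA x (mem_univ _) y hy hxy).2
    simp only [Pi.neg_apply] at this
    omega
  have hyB : y ∈ B := by
    rw [Finset.mem_union] at hy
    exact hy.resolve_left hyA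
  have hzA : z ∉ A := fun hz' => hyA (hA y (mem_univ _) z hz' hyz).1
  have hzB : z ∈ B := by
    rw [Finset.mem_union] at hz
    exact hz.resolve_left hzA
  exact (hB y (by simp [hyA]) z hzB hyz).2

theorem pair_card {A B : Finset P} (h : (A, B) ∈ pairs r ω univ) :
    A.card + B.card = (A ∪ B).card :=
  (Finset.card_union_of_disjoint (pair_disjoint h)).symm

theorem pair_card_le {A B : Finset P} (h : (A, B) ∈ pairs r ω univ) :
    A.card + B.card ≤ (JJ r ω).card := by
  rw [pair_card h]
  exact Finset.card_le_card (pair_subset_JJ h)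

open Classical in
/-- the elements with a smaller label above them -/
noncomputable def AA (r : P → P → Prop) (ω : P → ℤ) : Finset P :=
  (JJ r ω).filter (fun p => ∃ q ∈ JJ r ω, r p q ∧ ω q < ω p)

theorem mem_AA {p : P} : p ∈ AA r ω ↔ p ∈ JJ r ω ∧ ∃ q ∈ JJ r ω, r p q ∧ ω q < ω p := by
  classical
  simp [AA]

theorem pairs_top (ht : ∀ x y z, r x y → r y z → r x z) (hi : ∀ x, ¬ r x x)
    (hω : Function.Injective ω) (e : P) (he : LocMin r ω (JJ r ω) e)
    (huniq : ∀ e', LocMin r ω (JJ r ω) e' → e' = e) :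
    e ∉ AA r ω ∧ ∀ A B : Finset P,
      ((A, B) ∈ pairs r ω univ ∧ A.card + B.card = (JJ r ω).card) ↔
        ((A, B) = (AA r ω, JJ r ω \ AA r ω) ∨
          (A, B) = (insert e (AA r ω), JJ r ω \ insert e (AA r ω))) := by
  have hne : ∀ x y, r x y → ω x ≠ ω y := by
    intro x y h h'
    exact hi y (hω h' ▸ h)
  have heA : e ∉ AA r ω := by
    intro h
    obtain ⟨-, q, hq, heq, hlt⟩ := mem_AA.mp h
    have := he.2 q hq (Or.inr heq)
    omega
  have hAAJ : AA r ω ⊆ JJ r ω := fun p hp => (mem_AA.mp hp).1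
  refine ⟨heA, fun A B => ⟨?_, ?_⟩⟩
  · rintro ⟨hAB, hcard⟩
    have hunion : A ∪ B = JJ r ω := by
      apply Finset.eq_of_subset_of_card_le (pair_subset_JJ hAB)
      rw [← hcard, pair_card hAB]
    have hdisj := pair_disjoint hAB
    have hBeq : B = JJ r ω \ A := by
      rw [← hunion, Finset.union_sdiff_cancel_left hdisj]
    rw [mem_pairs] at hAB
    obtain ⟨⟨-, hA⟩, ⟨hB1, hB⟩⟩ := hAB
    have h1 : AA r ω ⊆ A := by
      intro p hp
      obtain ⟨hpJ, q, hq, hpq, hlt⟩ := mem_AA.mp hp
      by_contra hpA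
      have hqA : q ∉ A := fun hqA => hpA (hA p (mem_univ _) q hqA hpq).1
      have hqB : q ∈ B := by rw [hBeq, Finset.mem_sdiff]; exact ⟨hq, hqA⟩
      have := (hB p (by simp [hpA]) q hqB hpq).2
      omega
    have h2 : ∀ p ∈ A, p ≠ e → p ∈ AA r ω := by
      intro p hp hpe
      have hpJ : p ∈ JJ r ω := by rw [← hunion]; exact Finset.mem_union_left _ hp
      have hnl : ¬ LocMin r ω (JJ r ω) p := fun h => hpe (huniq p h)
      unfold LocMin at hnl
      push Not at hnl
      obtain ⟨x, hxJ, hx, hle⟩ := hnl hpJ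
      rcases hx with hx | hx
      · have := (hA x (mem_univ _) p hp hx).2
        simp only [Pi.neg_apply] at this
        omega
      · rw [mem_AA]
        exact ⟨hpJ, x, hxJ, hx, lt_of_le_of_ne hle (Ne.symm (hne _ _ hx))⟩
    by_cases heA' : e ∈ A
    · right
      have hA' : A = insert e (AA r ω) := by
        ext p
        rw [Finset.mem_insert]
        constructor
        · intro hp
          by_cases hpe : p = e
          · exact Or.inl hpe
          · exact Or.inr (h2 p hp hpe)
        · rintro (rfl | hp)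
          · exact heA'
          · exact h1 hp
      rw [hBeq, hA']
    · left
      have hA' : A = AA r ω := by
        ext p
        constructor
        · intro hp
          exact h2 p hp (fun h => heA' (h ▸ hp))
        · exact fun hp => h1 hp
      rw [hBeq, hA']
  · have key : ∀ A : Finset P, AA r ω ⊆ A → A ⊆ JJ r ω →
        (∀ a b, b ∈ A → r a b → a ∈ A ∧ ω b < ω a) →
        (A, JJ r ω \ A) ∈ pairs r ω univ ∧
          A.card + (JJ r ω \ A).card = (JJ r ω).card := by
      intro A h1 h2 h3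
      refine ⟨?_, ?_⟩
      · rw [mem_pairs]
        refine ⟨⟨subset_univ _, fun a _ b hb hab => ?_⟩, ?_, fun a ha b hb hab => ?_⟩
        · have := h3 a b hb hab
          exact ⟨this.1, by simpa using this.2⟩
        · exact Finset.sdiff_subset_sdiff (subset_univ _) (Finset.Subset.refl _)
        · rw [Finset.mem_sdiff] at ha hb ⊢
          have haJ : a ∈ JJ r ω := JJ_down ht hb.1 hab
          refine ⟨⟨haJ, ha.2⟩, ?_⟩
          rcases lt_or_gt_of_ne (hne _ _ hab) with h | h
          · exact h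
          · exact absurd (h1 (mem_AA.mpr ⟨haJ, b, hb.1, hab, h⟩)) ha.2
      · rw [Finset.card_sdiff_of_subset h2]
        have := Finset.card_le_card h2
        omega
    have hAA : ∀ a b, b ∈ AA r ω → r a b → a ∈ AA r ω ∧ ω b < ω a := by
      intro a b hb hab
      obtain ⟨hbJ, q, hq, hbq, hlt⟩ := mem_AA.mp hb
      have h4 : ω b < ω a := by
        rcases lt_or_gt_of_ne (hne _ _ hab) with h | h
        · have := mem_JJ.mp hq a b q hab hbq (Or.inr rfl) h
          omega
        · exact h
      exact ⟨mem_AA.mpr ⟨JJ_down ht hbJ hab, b, hbJ, hab, h4⟩, h4⟩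
    rintro (h | h)
    · rw [Prod.mk.injEq] at h
      obtain ⟨rfl, rfl⟩ := h
      exact key _ (Finset.Subset.refl _) hAAJ hAA
    · rw [Prod.mk.injEq] at h
      obtain ⟨rfl, rfl⟩ := h
      apply key _ (Finset.subset_insert _ _) (Finset.insert_subset he.1 hAAJ)
      intro a b hb hab
      rw [Finset.mem_insert] at hb
      rcases hb with rfl | hb
      · have haJ := JJ_down ht he.1 hab
        have h5 := he.2 a haJ (Or.inl hab)
        exact ⟨Finset.mem_insert_of_mem (mem_AA.mpr ⟨haJ, b, he.1, hab, h5⟩), h5⟩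
      · have := hAA a b hb hab
        exact ⟨Finset.mem_insert_of_mem this.1, this.2⟩

/-- the sign-reversing toggle -/
theorem toggle_to_A (hω : Function.Injective ω) {U A B : Finset P}
    (h : (A, B) ∈ pairs r ω U) (e : P) (he : e ∈ B) (hmin : ∀ x ∈ A ∪ B, ω e ≤ ω x) :
    (insert e A, B.erase e) ∈ pairs r ω U := by
  rw [mem_pairs] at h ⊢
  obtain ⟨⟨hA1, hA⟩, ⟨hB1, hB⟩⟩ := h
  have heU : e ∈ U := (Finset.mem_sdiff.mp (hB1 he)).1
  refine ⟨⟨Finset.insert_subset heU hA1, fun a ha b hb hab => ?_⟩, ?_, fun a ha b hb hab => ?_⟩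
  · rw [Finset.mem_insert] at hb
    rcases hb with rfl | hb
    · have haA : a ∈ A := by
        by_contra haA
        have h1 := hB a (Finset.mem_sdiff.mpr ⟨ha, haA⟩) b he hab
        have h2 := hmin a (Finset.mem_union_right _ h1.1)
        omega
      refine ⟨Finset.mem_insert_of_mem haA, ?_⟩
      have h2 := hmin a (Finset.mem_union_left _ haA)
      have h3 : ω b ≠ ω a := by
        intro h4
        have := hω h4
        subst this
        exact (Finset.mem_sdiff.mp (hB1 he)).2 haA
      simp only [Pi.neg_apply]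
      omega
    · have := hA a ha b hb hab
      exact ⟨Finset.mem_insert_of_mem this.1, this.2⟩
  · intro x hx
    rw [Finset.mem_erase] at hx
    have := Finset.mem_sdiff.mp (hB1 hx.2)
    rw [Finset.mem_sdiff, Finset.mem_insert]
    exact ⟨this.1, fun h => h.elim hx.1 this.2⟩
  · rw [Finset.mem_sdiff, Finset.mem_insert] at ha
    rw [Finset.mem_erase] at hb ⊢
    push Not at ha
    have := hB a (Finset.mem_sdiff.mpr ⟨ha.1, ha.2.2⟩) b hb.2 hab
    exact ⟨⟨ha.2.1, this.1⟩, this.2⟩

theorem toggle_to_B (hi : ∀ x, ¬ r x x) (hω : Function.Injective ω) {U A B : Finset P}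
    (h : (A, B) ∈ pairs r ω U) (e : P) (he : e ∈ A) (hmin : ∀ x ∈ A ∪ B, ω e ≤ ω x) :
    (A.erase e, insert e B) ∈ pairs r ω U := by
  rw [mem_pairs] at h ⊢
  obtain ⟨⟨hA1, hA⟩, ⟨hB1, hB⟩⟩ := h
  have heU : e ∈ U := hA1 he
  have heB : e ∉ B := fun h => (Finset.mem_sdiff.mp (hB1 h)).2 he
  refine ⟨⟨(Finset.erase_subset _ _).trans hA1, fun a ha b hb hab => ?_⟩, ?_,
    fun a ha b hb hab => ?_⟩
  · rw [Finset.mem_erase] at hb ⊢
    have h1 := hA a ha b hb.2 hab
    refine ⟨⟨?_, h1.1⟩, h1.2⟩
    rintro rfl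
    have h2 := hmin b (Finset.mem_union_left _ hb.2)
    have := h1.2
    simp only [Pi.neg_apply] at this
    omega
  · intro x hx
    rw [Finset.mem_insert] at hx
    rw [Finset.mem_sdiff, Finset.mem_erase]
    rcases hx with rfl | hx
    · exact ⟨heU, fun h => h.1 rfl⟩
    · have := Finset.mem_sdiff.mp (hB1 hx)
      exact ⟨this.1, fun h => this.2 h.2⟩
  · rw [Finset.mem_sdiff, Finset.mem_erase] at ha
    rw [Finset.mem_insert] at hb ⊢
    rcases hb with rfl | hb
    · have haA : a ∈ A := (hA a ha.1 b he hab).1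
      exfalso
      apply ha.2
      refine ⟨?_, haA⟩
      rintro rfl
      exact hi _ hab
    · by_cases hae : a = e
      · subst hae
        refine ⟨Or.inl rfl, ?_⟩
        have h2 := hmin b (Finset.mem_union_right _ hb)
        have h3 : ω a ≠ ω b := by
          intro h4
          have := hω h4
          subst this
          exact heB hb
        omega
      · have haA : a ∉ A := fun h => ha.2 ⟨hae, h⟩
        have := hB a (Finset.mem_sdiff.mpr ⟨ha.1, haA⟩) b hb hab
        exact ⟨Or.inr this.1, this.2⟩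

end

end Pool.Agent.Lib.MP_5bc52d_co
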