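import Mathlib
import Pool.Agent.Lib.MP_5bc52d_co.Comb

/-!
# The criterion for families of elements with the partition-function recursion
-/

open Finset Polynomial

set_option linter.unusedSectionVars false

namespace Pool.Agent.Lib.MP_5bc52d_co

variable {P : Type*} [Fintype P] [DecidableEq P]

open Classical in
/-- the initial parts of `U` on which `ω` increases -/
noncomputable def wks (r : P → P → Prop) (ω : P → ℤ) (U : Finset P) : Finset (Finset P) :=
  U.powerset.filter (fun I => Wk r ω U I)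

theorem mem_wks {r : P → P → Prop} {ω : P → ℤ} {U I : Finset P} :
    I ∈ wks r ω U ↔ Wk r ω U I := by
  classical
  rw [wks, Finset.mem_filter, Finset.mem_powerset]
  exact ⟨fun h => h.2, fun h => ⟨h.1, h⟩⟩

theorem sum_pairs {r : P → P → Prop} {ω : P → ℤ} {U : Finset P} {M : Type*} [AddCommMonoid M]
    (f : Finset P → Finset P → M) :
    ∑ A ∈ wks r (-ω) U, ∑ B ∈ wks r ω (U \ A), f A B = ∑ p ∈ pairs r ω U, f p.1 p.2 := by
  rw [Finset.sum_sigma']
  refine Finset.sum_bij' (fun p _ => (p.1, p.2)) (fun p _ => ⟨p.1, p.2⟩) ?_ ?_ ?_ ?_ ?_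
  · intro p hp
    rw [Finset.mem_sigma, mem_wks, mem_wks] at hp
    exact mem_pairs.mpr hp
  · intro p hp
    rw [Finset.mem_sigma, mem_wks, mem_wks]
    exact mem_pairs.mp hp
  · intro p _; rfl
  · intro p _; rfl
  · intro p _; rfl

open Classical in
/-- the set of elements of `K` with smallest label -/
noncomputable def MM (ω : P → ℤ) (K : Finset P) : Finset P :=
  K.filter (fun e => ∀ x ∈ K, ω e ≤ ω x)

theorem MM_eq {ω : P → ℤ} (hω : Function.Injective ω) {K : Finset P} (hK : K.Nonempty) :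
    ∃ e ∈ K, MM ω K = {e} ∧ ∀ x ∈ K, ω e ≤ ω x := by
  classical
  obtain ⟨e, he, hmin⟩ := K.exists_min_image ω hK
  refine ⟨e, he, ?_, hmin⟩
  ext x
  rw [MM, Finset.mem_filter, Finset.mem_singleton]
  constructor
  · rintro ⟨hx, hx'⟩
    exact hω (le_antisymm (hx' e he) (hmin x hx))
  · rintro rfl
    exact ⟨he, hmin⟩

theorem symmDiff_singleton_of_mem {A : Finset P} {e : P} (h : e ∈ A) :
    symmDiff A {e} = A.erase e := by
  ext x
  rw [Finset.mem_symmDiff, Finset.mem_singleton, Finset.mem_erase]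
  constructor
  · rintro (⟨h1, h2⟩ | ⟨h1, h2⟩)
    · exact ⟨h2, h1⟩
    · exact absurd (h1 ▸ h) h2
  · rintro ⟨h1, h2⟩
    exact Or.inl ⟨h2, h1⟩

theorem symmDiff_singleton_of_notMem {A : Finset P} {e : P} (h : e ∉ A) :
    symmDiff A {e} = insert e A := by
  ext x
  rw [Finset.mem_symmDiff, Finset.mem_singleton, Finset.mem_insert]
  constructor
  · rintro (⟨h1, h2⟩ | ⟨h1, h2⟩)
    · exact Or.inr h1
    · exact Or.inl h1
  · rintro (h1 | h1)
    · exact Or.inr ⟨h1, h1 ▸ h⟩
    · exact Or.inl ⟨h1, fun h2 => h (h2 ▸ h1)⟩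

section
variable {r : P → P → Prop} {ω : P → ℤ} {A : Type*} [CommRing A]

/-- what the toggle does -/
theorem toggle (hi : ∀ x, ¬ r x x) (hω : Function.Injective ω) {U : Finset P}
    {p : Finset P × Finset P} (hp : p ∈ (pairs r ω U).erase (∅, ∅)) :
    (symmDiff p.1 (MM ω (p.1 ∪ p.2)), symmDiff p.2 (MM ω (p.1 ∪ p.2))) ∈
        (pairs r ω U).erase (∅, ∅) ∧
      (symmDiff p.1 (MM ω (p.1 ∪ p.2))) ∪ (symmDiff p.2 (MM ω (p.1 ∪ p.2))) = p.1 ∪ p.2 ∧
      ((-1 : ℤ) ^ (symmDiff p.1 (MM ω (p.1 ∪ p.2))).card = - (-1) ^ p.1.card) := by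
  obtain ⟨A, B⟩ := p
  rw [Finset.mem_erase] at hp
  obtain ⟨hne, hp⟩ := hp
  have hK : (A ∪ B).Nonempty := by
    rw [Finset.nonempty_iff_ne_empty]
    intro h
    rw [Finset.union_eq_empty] at h
    exact hne (by rw [h.1, h.2])
  have hdisj := pair_disjoint hp
  obtain ⟨e, he, hM, hmin⟩ := MM_eq hω hK
  simp only [hM]
  by_cases heA : e ∈ A
  · have heB : e ∉ B := Finset.disjoint_left.mp hdisj heA
    rw [symmDiff_singleton_of_mem heA, symmDiff_singleton_of_notMem heB]
    refine ⟨?_, ?_, ?_⟩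
    · rw [Finset.mem_erase]
      refine ⟨?_, toggle_to_B hi hω hp e heA hmin⟩
      intro h
      rw [Prod.mk.injEq] at h
      have := Finset.mem_insert_self e B
      rw [h.2] at this
      exact absurd this (Finset.notMem_empty _)
    · ext x
      simp only [Finset.mem_union, Finset.mem_erase, Finset.mem_insert]
      constructor
      · rintro (⟨_, h⟩ | h | h)
        · exact Or.inl h
        · exact Or.inl (h ▸ heA)
        · exact Or.inr h
      · rintro (h | h)
        · by_cases hx : x = e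
          · exact Or.inr (Or.inl hx)
          · exact Or.inl ⟨hx, h⟩
        · exact Or.inr (Or.inr h)
    · have h1 : A.card = (A.erase e).card + 1 := (Finset.card_erase_add_one heA).symm
      rw [h1, pow_succ]
      ring
  · have heB : e ∈ B := by
      rw [Finset.mem_union] at he
      exact he.resolve_left heA
    rw [symmDiff_singleton_of_notMem heA, symmDiff_singleton_of_mem heB]
    refine ⟨?_, ?_, ?_⟩
    · rw [Finset.mem_erase]
      refine ⟨?_, toggle_to_A hω hp e heB hmin⟩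
      intro h
      rw [Prod.mk.injEq] at h
      have := Finset.mem_insert_self e A
      rw [h.1] at this
      exact absurd this (Finset.notMem_empty _)
    · ext x
      simp only [Finset.mem_union, Finset.mem_erase, Finset.mem_insert]
      constructor
      · rintro ((h | h) | ⟨_, h⟩)
        · exact Or.inr (h ▸ heB)
        · exact Or.inl h
        · exact Or.inr h
      · rintro (h | h)
        · exact Or.inl (Or.inr h)
        · by_cases hx : x = e
          · exact Or.inl (Or.inl hx)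
          · exact Or.inr ⟨hx, h⟩
    · rw [Finset.card_insert_of_notMem heA, pow_succ]
      ring

theorem pair_card' {U : Finset P} {A B : Finset P} (h : (A, B) ∈ pairs r ω U) :
    A.card + B.card = (A ∪ B).card :=
  (Finset.card_union_of_disjoint (pair_disjoint h)).symm

/-- the alternating sum collapses -/
theorem sum_pairs_cancel (hi : ∀ x, ¬ r x x) (hω : Function.Injective ω) (U : Finset P)
    (f : Finset P → A[X]) :
    ∑ p ∈ pairs r ω U, (-1) ^ p.1.card * f (p.1 ∪ p.2) = f ∅ := by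
  have h0 : ((∅ : Finset P), (∅ : Finset P)) ∈ pairs r ω U := by
    rw [mem_pairs]
    exact ⟨⟨Finset.empty_subset _, fun a _ b hb => absurd hb (Finset.notMem_empty _)⟩,
      ⟨Finset.empty_subset _, fun a _ b hb => absurd hb (Finset.notMem_empty _)⟩⟩
  rw [← Finset.add_sum_erase _ _ h0]
  have : ∑ p ∈ (pairs r ω U).erase (∅, ∅), (-1 : A[X]) ^ p.1.card * f (p.1 ∪ p.2) = 0 := by
    have hsign : ∀ p ∈ (pairs r ω U).erase (∅, ∅),
        (-1 : A[X]) ^ (symmDiff p.1 (MM ω (p.1 ∪ p.2))).card = - (-1) ^ p.1.card := by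
      intro p hp
      have := (toggle hi hω hp).2.2
      have h2 := congrArg (Int.castRingHom A[X]) this
      simpa using h2
    refine Finset.sum_involution
      (fun p _ => (symmDiff p.1 (MM ω (p.1 ∪ p.2)), symmDiff p.2 (MM ω (p.1 ∪ p.2))))
      ?_ ?_ ?_ ?_
    · intro p hp
      simp only [hsign p hp, (toggle hi hω hp).2.1]
      ring
    · intro p hp _ heq
      have h3 : symmDiff p.1 (MM ω (p.1 ∪ p.2)) = p.1 := congrArg Prod.fst heq
      have h4 := (toggle hi hω hp).2.2
      rw [h3] at h4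
      have h5 : ((-1 : ℤ) ^ p.1.card) ≠ 0 := pow_ne_zero _ (by norm_num)
      omega
    · intro p hp
      exact (toggle hi hω hp).1
    · intro p hp
      have h3 := (toggle hi hω hp).2.1
      simp only [h3, symmDiff_symmDiff_cancel_right]
  rw [this, add_zero]
  simp

variable (S : Splitting A) (Γ : Finset P → A)

theorem E_Gamma (hE : ∀ U k, S.qp k (Γ U) = ∑ I ∈ (wks r ω U) with I.card = k, Γ (U \ I))
    (U : Finset P) : S.E (Γ U) = ∑ I ∈ wks r ω U, C (Γ (U \ I)) * X ^ I.card := by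
  ext1 k
  rw [S.coeff_E, hE, finsetSum_coeff, Finset.sum_filter]
  apply Finset.sum_congr rfl
  intro I _
  rw [coeff_C_mul_X_pow]
  by_cases h : I.card = k
  · rw [if_pos h, if_pos h.symm]
  · rw [if_neg h, if_neg (Ne.symm h)]

theorem N_Gamma (hi : ∀ x, ¬ r x x) (hω : Function.Injective ω)
    (hE : ∀ U k, S.qp k (Γ U) = ∑ I ∈ (wks r ω U) with I.card = k, Γ (U \ I))
    (U : Finset P) :
    S.N (Γ U) = ∑ I ∈ wks r (-ω) U, (-1) ^ I.card * (C (Γ (U \ I)) * X ^ I.card) := by
  apply S.N_eq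
  rw [map_sum]
  have h1 : ∀ I ∈ wks r (-ω) U,
      S.Ehat ((-1) ^ I.card * (C (Γ (U \ I)) * X ^ I.card)) =
        ∑ J ∈ wks r ω (U \ I), (-1) ^ I.card * (C (Γ (U \ (I ∪ J))) * X ^ (I ∪ J).card) := by
    intro I hI
    rw [map_mul, map_mul, map_pow, map_pow, map_neg, map_one, S.Ehat_C, S.Ehat_X,
      E_Gamma S Γ hE, Finset.sum_mul, Finset.mul_sum]
    apply Finset.sum_congr rfl
    intro J hJ
    have hp : (I, J) ∈ pairs r ω U := mem_pairs.mpr ⟨mem_wks.mp hI, mem_wks.mp hJ⟩
    rw [← pair_card' hp, sdiff_sdiff_left, pow_add]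
    simp only [Finset.sup_eq_union]
    ring
  rw [Finset.sum_congr rfl h1,
    sum_pairs (fun I J => (-1) ^ I.card * (C (Γ (U \ (I ∪ J))) * X ^ (I ∪ J).card)),
    sum_pairs_cancel hi hω U (fun K => C (Γ (U \ K)) * X ^ K.card)]
  simp

theorem Theta₁_Gamma (hi : ∀ x, ¬ r x x) (hω : Function.Injective ω)
    (hE : ∀ U k, S.qp k (Γ U) = ∑ I ∈ (wks r ω U) with I.card = k, Γ (U \ I))
    (U : Finset P) :
    S.Theta₁ (Γ U) = ∑ p ∈ pairs r ω U,
      C ((-X) ^ p.1.card * C (Γ (U \ (p.1 ∪ p.2)))) * X ^ (p.1.card + p.2.card) := by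
  rw [Splitting.Theta₁, RingHom.comp_apply, N_Gamma S Γ hi hω hE, map_sum,
    ← sum_pairs (fun I J => C ((-X) ^ I.card * C (Γ (U \ (I ∪ J)))) * X ^ (I.card + J.card))]
  apply Finset.sum_congr rfl
  intro I hI
  rw [map_mul, map_mul, map_pow, map_pow, map_neg, map_one]
  simp only [coe_eval₂RingHom, eval₂_C, eval₂_X, RingHom.comp_apply]
  rw [E_Gamma S Γ hE, map_sum, Finset.sum_mul, Finset.mul_sum]
  apply Finset.sum_congr rfl
  intro J hJ
  rw [map_mul, map_pow, Splitting.inner_C, Splitting.inner_X, sdiff_sdiff_left]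
  simp only [Finset.sup_eq_union, C_mul, C_pow, C_neg]
  rw [neg_pow (C X : A[X][X]), mul_pow, pow_add]
  ring

theorem Theta₂_Gamma (hi : ∀ x, ¬ r x x) (hω : Function.Injective ω)
    (hE : ∀ U k, S.qp k (Γ U) = ∑ I ∈ (wks r ω U) with I.card = k, Γ (U \ I))
    (U : Finset P) :
    S.Theta₂ (Γ U) = ∑ p ∈ pairs r (-ω) U,
      C ((-X) ^ p.2.card * C (Γ (U \ (p.1 ∪ p.2)))) * X ^ (p.1.card + p.2.card) := by
  rw [Splitting.Theta₂, RingHom.comp_apply, E_Gamma S Γ hE, map_sum,
    ← sum_pairs (fun I J => C ((-X) ^ J.card * C (Γ (U \ (I ∪ J)))) * X ^ (I.card + J.card)),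
    neg_neg]
  apply Finset.sum_congr rfl
  intro I hI
  rw [map_mul, map_pow]
  simp only [coe_eval₂RingHom, eval₂_C, eval₂_X, RingHom.comp_apply]
  rw [N_Gamma S Γ hi hω hE, map_sum, Finset.sum_mul]
  apply Finset.sum_congr rfl
  intro J hJ
  rw [map_mul, map_mul, map_pow, map_pow, map_neg, map_one, Splitting.scaled_C,
    Splitting.scaled_X, sdiff_sdiff_left]
  simp only [Finset.sup_eq_union, C_mul, C_pow, C_neg]
  rw [neg_pow (C X : A[X][X]), mul_pow, pow_add]
  ring

variable [IsDomain A]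

theorem coeff_sum_pairs (s : Finset (Finset P × Finset P)) (g : Finset P × Finset P → A[X])
    (d : Finset P × Finset P → ℕ) (m : ℕ) :
    (∑ p ∈ s, C (g p) * X ^ (d p) : A[X][X]).coeff m = ∑ p ∈ s with d p = m, g p := by
  rw [finsetSum_coeff, Finset.sum_filter]
  apply Finset.sum_congr rfl
  intro p _
  rw [coeff_C_mul_X_pow]
  by_cases h : d p = m
  · rw [if_pos h, if_pos h.symm]
  · rw [if_neg h, if_neg (Ne.symm h)]

theorem irreducible₁ (ht : ∀ x y z, r x y → r y z → r x z) (hi : ∀ x, ¬ r x x)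
    (hω : Function.Injective ω)
    (hE : ∀ U k, S.qp k (Γ U) = ∑ I ∈ (wks r ω U) with I.card = k, Γ (U \ I))
    (hΓ : ∀ U, Γ U ≠ 0)
    (he : ∃! e, LocMin r ω (JJ r ω) e) : Irreducible (Γ univ) := by
  obtain ⟨e, he, huniq⟩ := he
  obtain ⟨heA, htop⟩ := pairs_top ht hi hω e he huniq
  refine S.irreducible_of_top S.Theta₁ S.ev_one_Theta₁ S.ev_zero_Theta₁ (Γ univ)
    (JJ r ω).card (Finset.card_pos.mpr ⟨e, he.1⟩) (Γ (univ \ JJ r ω)) (hΓ _)
    (AA r ω).card ?_ ?_
  · intro m hm
    rw [Theta₁_Gamma S Γ hi hω hE, coeff_sum_pairs]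
    apply Finset.sum_eq_zero
    intro p hp
    rw [Finset.mem_filter] at hp
    have := pair_card_le (A := p.1) (B := p.2) hp.1
    omega
  · rw [Theta₁_Gamma S Γ hi hω hE, coeff_sum_pairs]
    have hAAJ : AA r ω ⊆ JJ r ω := fun p hp => (mem_AA.mp hp).1
    have hins : insert e (AA r ω) ⊆ JJ r ω := Finset.insert_subset he.1 hAAJ
    have hset : (pairs r ω univ).filter (fun p => p.1.card + p.2.card = (JJ r ω).card) =
        {(AA r ω, JJ r ω \ AA r ω), (insert e (AA r ω), JJ r ω \ insert e (AA r ω))} := by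
      ext ⟨A', B'⟩
      rw [Finset.mem_filter, Finset.mem_insert, Finset.mem_singleton]
      exact htop A' B'
    have hne : (AA r ω, JJ r ω \ AA r ω) ≠
        (insert e (AA r ω), JJ r ω \ insert e (AA r ω)) := by
      intro h
      apply heA
      have h1 := congrArg Prod.fst h
      simp only at h1
      rw [h1]
      exact Finset.mem_insert_self _ _
    rw [hset, Finset.sum_pair hne]
    simp only [Finset.union_sdiff_of_subset hAAJ, Finset.union_sdiff_of_subset hins,
      Finset.card_insert_of_notMem heA]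
    ring

theorem irreducible₂ (ht : ∀ x y z, r x y → r y z → r x z) (hi : ∀ x, ¬ r x x)
    (hω : Function.Injective ω)
    (hE : ∀ U k, S.qp k (Γ U) = ∑ I ∈ (wks r ω U) with I.card = k, Γ (U \ I))
    (hΓ : ∀ U, Γ U ≠ 0)
    (he : ∃! e, LocMin r (-ω) (JJ r (-ω)) e) : Irreducible (Γ univ) := by
  obtain ⟨e, he, huniq⟩ := he
  have hω' : Function.Injective (-ω) := fun a b h => hω (by simpa using h)
  obtain ⟨heA, htop⟩ := pairs_top ht hi hω' e he huniq
  have hAAJ : AA r (-ω) ⊆ JJ r (-ω) := fun p hp => (mem_AA.mp hp).1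
  have hins : insert e (AA r (-ω)) ⊆ JJ r (-ω) := Finset.insert_subset he.1 hAAJ
  have hcard : (AA r (-ω)).card + 1 ≤ (JJ r (-ω)).card := by
    rw [← Finset.card_insert_of_notMem heA]
    exact Finset.card_le_card hins
  refine S.irreducible_of_top S.Theta₂ S.ev_one_Theta₂ S.ev_zero_Theta₂ (Γ univ)
    (JJ r (-ω)).card (Finset.card_pos.mpr ⟨e, he.1⟩) (Γ (univ \ JJ r (-ω))) (hΓ _)
    ((JJ r (-ω)).card - ((AA r (-ω)).card + 1)) ?_ ?_
  · intro m hm
    rw [Theta₂_Gamma S Γ hi hω hE, coeff_sum_pairs]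
    apply Finset.sum_eq_zero
    intro p hp
    rw [Finset.mem_filter] at hp
    have := pair_card_le (A := p.1) (B := p.2) hp.1
    omega
  · rw [Theta₂_Gamma S Γ hi hω hE, coeff_sum_pairs]
    have hset : (pairs r (-ω) univ).filter
        (fun p => p.1.card + p.2.card = (JJ r (-ω)).card) =
        {(AA r (-ω), JJ r (-ω) \ AA r (-ω)),
          (insert e (AA r (-ω)), JJ r (-ω) \ insert e (AA r (-ω)))} := by
      ext ⟨A', B'⟩
      rw [Finset.mem_filter, Finset.mem_insert, Finset.mem_singleton]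
      exact htop A' B'
    have hne : (AA r (-ω), JJ r (-ω) \ AA r (-ω)) ≠
        (insert e (AA r (-ω)), JJ r (-ω) \ insert e (AA r (-ω))) := by
      intro h
      apply heA
      have h1 := congrArg Prod.fst h
      simp only at h1
      rw [h1]
      exact Finset.mem_insert_self _ _
    rw [hset, Finset.sum_pair hne]
    simp only [Finset.union_sdiff_of_subset hAAJ, Finset.union_sdiff_of_subset hins,
      Finset.card_sdiff_of_subset hAAJ, Finset.card_sdiff_of_subset hins,
      Finset.card_insert_of_notMem heA]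
    obtain ⟨t, ht'⟩ : ∃ t, (JJ r (-ω)).card = (AA r (-ω)).card + 1 + t :=
      ⟨_, (Nat.add_sub_cancel' hcard).symm⟩
    have e1 : (JJ r (-ω)).card - (AA r (-ω)).card = t + 1 := by omega
    have e2 : (JJ r (-ω)).card - ((AA r (-ω)).card + 1) = t := by omega
    rw [e1, e2]
    ring

end

end Pool.Agent.Lib.MP_5bc52d_co
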