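import Mathlib

/-!
# Splitting off the first variable of a power series in countably many variables
-/

open Finset

namespace Pool.Agent.Lib.MP_5bc52d_co

/-- power series in countably many variables -/
abbrev R := MvPowerSeries ℕ ℚ

/-- the exponent with value `k` at `0` and `m i` at `i + 1` -/
noncomputable def sh (k : ℕ) (m : ℕ →₀ ℕ) : ℕ →₀ ℕ :=
  Finsupp.single 0 k + m.mapDomain Nat.succ

/-- forget the exponent of the first variable -/
noncomputable def tl (m : ℕ →₀ ℕ) : ℕ →₀ ℕ :=
  m.comapDomain Nat.succ Nat.succ_injective.injOn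

theorem sh_zero (k : ℕ) (m : ℕ →₀ ℕ) : sh k m 0 = k := by
  have : m.mapDomain Nat.succ 0 = 0 :=
    Finsupp.mapDomain_of_notMem_range _ _ (by simp)
  simp [sh, this]

theorem sh_succ (k : ℕ) (m : ℕ →₀ ℕ) (i : ℕ) : sh k m (i + 1) = m i := by
  have : m.mapDomain Nat.succ (Nat.succ i) = m i :=
    Finsupp.mapDomain_apply Nat.succ_injective _ _
  rw [sh, Finsupp.add_apply, Finsupp.single_apply, if_neg (by omega), zero_add]
  exact this

theorem tl_apply (m : ℕ →₀ ℕ) (i : ℕ) : tl m i = m (i + 1) := rfl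

theorem sh_tl (m : ℕ →₀ ℕ) : sh (m 0) (tl m) = m := by
  ext i
  cases i with
  | zero => exact sh_zero _ _
  | succ i => rw [sh_succ, tl_apply]

theorem tl_sh (k : ℕ) (m : ℕ →₀ ℕ) : tl (sh k m) = m := by
  ext i
  rw [tl_apply, sh_succ]

theorem sh_inj {k k' : ℕ} {m m' : ℕ →₀ ℕ} : sh k m = sh k' m' ↔ k = k' ∧ m = m' := by
  constructor
  · intro h
    exact ⟨by rw [← sh_zero k m, h, sh_zero], by rw [← tl_sh k m, h, tl_sh]⟩
  · rintro ⟨rfl, rfl⟩; rfl

theorem sh_add (k k' : ℕ) (m m' : ℕ →₀ ℕ) : sh k m + sh k' m' = sh (k + k') (m + m') := by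
  ext i
  cases i with
  | zero => simp [sh_zero]
  | succ i => simp [sh_succ]

theorem tl_add (m m' : ℕ →₀ ℕ) : tl (m + m') = tl m + tl m' := by
  ext i; simp [tl_apply]

theorem sh_zero_zero : sh 0 0 = 0 := by
  simp [sh]

/-- total degree -/
theorem deg_sh (k : ℕ) (m : ℕ →₀ ℕ) :
    (sh k m).sum (fun _ e => e) = k + m.sum (fun _ e => e) := by
  rw [sh, Finsupp.sum_add_index' (by simp) (by simp), Finsupp.sum_single_index rfl,
    Finsupp.sum_mapDomain_index (by simp) (by simp)]

/-- the coefficient of `x₀^k`, with the other variables renumbered -/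
noncomputable def part (k : ℕ) (F : R) : R := fun m => MvPowerSeries.coeff (sh k m) F

theorem coeff_part (k : ℕ) (F : R) (m : ℕ →₀ ℕ) :
    MvPowerSeries.coeff m (part k F) = MvPowerSeries.coeff (sh k m) F := rfl

theorem part_add (k : ℕ) (F G : R) : part k (F + G) = part k F + part k G := by
  ext m; simp [coeff_part]

theorem part_zero' (k : ℕ) : part k (0 : R) = 0 := by
  ext m; simp [coeff_part]

theorem part_one (k : ℕ) : part k (1 : R) = if k = 0 then 1 else 0 := by
  ext m
  rw [coeff_part, MvPowerSeries.coeff_one]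
  by_cases hk : k = 0
  · subst hk
    rw [if_pos rfl, MvPowerSeries.coeff_one]
    have : sh 0 m = 0 ↔ m = 0 := by
      have h := sh_inj (k := 0) (k' := 0) (m := m) (m' := 0)
      rw [sh_zero_zero] at h
      simpa using h
    simp only [this]
  · rw [if_neg hk, if_neg]
    · simp
    · intro h
      apply hk
      rw [← sh_zero k m, h]; rfl

theorem part_mul (k : ℕ) (F G : R) :
    part k (F * G) = ∑ p ∈ antidiagonal k, part p.1 F * part p.2 G := by
  ext m
  rw [coeff_part, MvPowerSeries.coeff_mul, map_sum]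
  simp only [MvPowerSeries.coeff_mul, coeff_part]
  rw [Finset.sum_sigma']
  refine Finset.sum_bij' (fun p _ => ⟨(p.1 0, p.2 0), (tl p.1, tl p.2)⟩)
    (fun p _ => (sh p.1.1 p.2.1, sh p.1.2 p.2.2)) ?_ ?_ ?_ ?_ ?_
  · intro p hp
    rw [HasAntidiagonal.mem_antidiagonal] at hp
    rw [mem_sigma, HasAntidiagonal.mem_antidiagonal, HasAntidiagonal.mem_antidiagonal]
    refine ⟨?_, ?_⟩
    · have := congrArg (fun q : ℕ →₀ ℕ => q 0) hp
      simpa [sh_zero] using this
    · have := congrArg tl hp
      rwa [tl_add, tl_sh] at this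
  · intro p hp
    rw [mem_sigma, HasAntidiagonal.mem_antidiagonal, HasAntidiagonal.mem_antidiagonal] at hp
    rw [HasAntidiagonal.mem_antidiagonal]
    rw [sh_add, hp.1, hp.2]
  · intro p _
    simp only [sh_tl]
  · intro p _
    simp only [sh_zero, tl_sh]
  · intro p _
    simp only [sh_tl]

/-- bounded degree and quasisymmetry -/
def IsQS (F : R) : Prop :=
  (∃ N : ℕ, ∀ m : ℕ →₀ ℕ, N < m.sum (fun _ e => e) → MvPowerSeries.coeff m F = 0) ∧
    ∀ m : ℕ →₀ ℕ, ∀ g : ℕ → ℕ, StrictMono g →
      MvPowerSeries.coeff (Finsupp.mapDomain g m) F = MvPowerSeries.coeff m F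

theorem part_isQS (k : ℕ) {F : R} (hF : IsQS F) : IsQS (part k F) := by
  obtain ⟨⟨N, hN⟩, hg⟩ := hF
  refine ⟨⟨N, fun m hm => hN _ ?_⟩, fun m g hgm => ?_⟩
  · rw [deg_sh]; omega
  · rw [coeff_part, coeff_part]
    set g' : ℕ → ℕ := fun i => Nat.casesOn i 0 (fun j => g j + 1) with hg'
    have hg'm : StrictMono g' := by
      apply strictMono_nat_of_lt_succ
      intro n
      cases n with
      | zero => simp [hg']
      | succ n => simpa [hg'] using hgm (Nat.lt_succ_self n)
    have : sh k (Finsupp.mapDomain g m) = Finsupp.mapDomain g' (sh k m) := by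
      rw [sh, sh, Finsupp.mapDomain_add, Finsupp.mapDomain_single, ← Finsupp.mapDomain_comp,
        ← Finsupp.mapDomain_comp]
      rfl
    rw [this]
    exact hg _ _ hg'm

theorem part_zero_eq {F : R} (hF : IsQS F) : part 0 F = F := by
  ext m
  rw [coeff_part]
  have : sh 0 m = Finsupp.mapDomain Nat.succ m := by simp [sh]
  rw [this]
  exact hF.2 m Nat.succ (fun a b h => Nat.succ_lt_succ h)

/-- a nonconstant quasisymmetric function has a nonzero part of positive index -/
theorem exists_part_ne_zero {F : R} (hF : IsQS F) (m : ℕ →₀ ℕ) (hm : m ≠ 0)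
    (hFm : MvPowerSeries.coeff m F ≠ 0) : ∃ k, 1 ≤ k ∧ part k F ≠ 0 := by
  have hne : m.support.Nonempty := by
    rw [Finset.nonempty_iff_ne_empty]
    intro h
    exact hm (Finsupp.support_eq_empty.mp h)
  set i₀ := m.support.min' hne with hi₀
  have hinj : Function.Injective (fun i => i + i₀) := fun a b h => by simpa using h
  set m' : ℕ →₀ ℕ := m.comapDomain (fun i => i + i₀) hinj.injOn with hm'
  have hmm' : Finsupp.mapDomain (fun i => i + i₀) m' = m := by
    apply Finsupp.mapDomain_comapDomain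
    · exact hinj
    · intro i hi
      have h1 : i₀ ≤ i := m.support.min'_le i hi
      exact ⟨i - i₀, by simp; omega⟩
  have h1 : MvPowerSeries.coeff m' F ≠ 0 := by
    rw [← hF.2 m' (fun i => i + i₀) (fun a b h => by simpa using h), hmm']
    exact hFm
  refine ⟨m' 0, ?_, ?_⟩
  · have h2 : m' 0 = m i₀ := by
      rw [hm']
      simp
    rw [h2]
    have := m.support.min'_mem hne
    rw [Finsupp.mem_support_iff] at this
    exact Nat.one_le_iff_ne_zero.mpr this
  · intro h0
    apply h1
    rw [← sh_tl m', ← coeff_part, h0]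
    simp

end Pool.Agent.Lib.MP_5bc52d_co
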