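import Mathlib
import Pool.Agent.Lib.MP_5bc52d_co.Split
import Pool.Agent.Lib.MP_5bc52d_co.Gen

/-!
# The partition generating functions of the subsets of a labelled poset
-/

open Finset

set_option linter.unusedSectionVars false

namespace Pool.Agent.Lib.MP_5bc52d_co

variable {P : Type*} [Fintype P] [DecidableEq P] [PartialOrder P]

/-- the exponent of the monomial of `f` on `U` -/
noncomputable def cnt (U : Finset P) (f : P → ℕ) : ℕ →₀ ℕ := ∑ p ∈ U, Finsupp.single (f p) 1

theorem cnt_apply (U : Finset P) (f : P → ℕ) (i : ℕ) :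
    cnt U f i = (U.filter (fun p => f p = i)).card := by
  rw [cnt, Finsupp.finsetSum_apply, Finset.card_filter]
  apply Finset.sum_congr rfl
  intro p _
  rw [Finsupp.single_apply]

theorem mem_support_cnt {U : Finset P} {f : P → ℕ} {p : P} (hp : p ∈ U) :
    f p ∈ (cnt U f).support := by
  rw [Finsupp.mem_support_iff, cnt_apply]
  have h : p ∈ U.filter (fun q => f q = f p) := Finset.mem_filter.mpr ⟨hp, rfl⟩
  exact (Finset.card_pos.mpr ⟨p, h⟩).ne'

/-- the `(U, ω)`-partitions with exponent `m`, extended by zero -/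
def Sol (ω : P → ℕ) (U : Finset P) (m : ℕ →₀ ℕ) : Set (P → ℕ) :=
  {f | (∀ p, p ∉ U → f p = 0) ∧
    (∀ a ∈ U, ∀ b ∈ U, a < b → f a ≤ f b ∧ (ω b < ω a → f a < f b)) ∧ cnt U f = m}

theorem Sol_finite (ω : P → ℕ) (U : Finset P) (m : ℕ →₀ ℕ) : (Sol ω U m).Finite := by
  apply Set.Finite.subset (Fintype.piFinset (fun _ : P => insert 0 m.support)).finite_toSet
  intro f hf
  rw [Finset.mem_coe, Fintype.mem_piFinset]
  intro p
  rw [Finset.mem_insert]
  by_cases hp : p ∈ U
  · right
    rw [← hf.2.2]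
    exact mem_support_cnt hp
  · exact Or.inl (hf.1 p hp)

instance (ω : P → ℕ) (U : Finset P) (m : ℕ →₀ ℕ) : Finite (Sol ω U m) :=
  (Sol_finite ω U m).to_subtype

/-- the generating function -/
noncomputable def Gam (ω : P → ℕ) (U : Finset P) : R := fun m => (Nat.card (Sol ω U m) : ℚ)

theorem coeff_Gam (ω : P → ℕ) (U : Finset P) (m : ℕ →₀ ℕ) :
    MvPowerSeries.coeff m (Gam ω U) = (Nat.card (Sol ω U m) : ℚ) := rfl

theorem deg_cnt (U : Finset P) (f : P → ℕ) : (cnt U f).sum (fun _ e => e) = U.card := by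
  rw [cnt, ← Finsupp.sum_finsetSum_index (by simp) (by simp)]
  simp

theorem Gam_isQS (ω : P → ℕ) (U : Finset P) : IsQS (Gam ω U) := by
  refine ⟨⟨U.card, fun m hm => ?_⟩, fun m g hg => ?_⟩
  · rw [coeff_Gam]
    have : Sol ω U m = ∅ := by
      rw [Set.eq_empty_iff_forall_notMem]
      intro f hf
      have := deg_cnt U f
      rw [hf.2.2] at this
      omega
    rw [this]
    simp
  · rw [coeff_Gam, coeff_Gam]
    congr 1
    symm
    have hcnt : ∀ f : P → ℕ, cnt U (fun p => if p ∈ U then g (f p) else 0) =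
        Finsupp.mapDomain g (cnt U f) := by
      intro f
      rw [cnt, cnt, Finsupp.mapDomain_finsetSum]
      apply Finset.sum_congr rfl
      intro p hp
      rw [if_pos hp, Finsupp.mapDomain_single]
    refine Nat.card_congr (Equiv.ofBijective
      (fun f : Sol ω U m => (⟨fun p => if p ∈ U then g (f.1 p) else 0, ?_⟩ :
        Sol ω U (Finsupp.mapDomain g m))) ⟨?_, ?_⟩)
    · obtain ⟨f, hf⟩ := f
      refine ⟨fun p hp => if_neg hp, fun a ha b hb hab => ?_, ?_⟩
      · have := hf.2.1 a ha b hb hab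
        simp only [if_pos ha, if_pos hb]
        exact ⟨hg.monotone this.1, fun h => hg (this.2 h)⟩
      · rw [hcnt, hf.2.2]
    · rintro ⟨f, hf⟩ ⟨f', hf'⟩ h
      rw [Subtype.mk.injEq] at h ⊢
      funext p
      by_cases hp : p ∈ U
      · have := congrFun h p
        simp only [if_pos hp] at this
        exact hg.injective this
      · rw [hf.1 p hp, hf'.1 p hp]
    · rintro ⟨f, hf⟩
      have hrange : ∀ p, ∃ i, p ∈ U → g i = f p := by
        intro p
        by_cases hp : p ∈ U
        · have h1 : f p ∈ (Finsupp.mapDomain g m).support := by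
            rw [← hf.2.2]; exact mem_support_cnt hp
          have h2 := Finsupp.mapDomain_support h1
          rw [Finset.mem_image] at h2
          obtain ⟨i, _, hi⟩ := h2
          exact ⟨i, fun _ => hi⟩
        · exact ⟨0, fun h => absurd h hp⟩
      choose f' hf' using hrange
      have hfeq : (fun p => if p ∈ U then g (if p ∈ U then f' p else 0) else 0) = f := by
        funext p
        by_cases hp : p ∈ U
        · simp only [if_pos hp]; exact hf' p hp
        · simp only [if_neg hp]; exact (hf.1 p hp).symm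
      refine ⟨⟨fun p => if p ∈ U then f' p else 0, fun p hp => if_neg hp,
        fun a ha b hb hab => ?_, ?_⟩, ?_⟩
      · have := hf.2.1 a ha b hb hab
        simp only [if_pos ha, if_pos hb]
        rw [← hf' a ha, ← hf' b hb] at this
        exact ⟨hg.le_iff_le.mp this.1, fun h => hg.lt_iff_lt.mp (this.2 h)⟩
      · apply Finsupp.mapDomain_injective hg.injective
        rw [← hcnt, hfeq, hf.2.2]
      · exact Subtype.ext hfeq

theorem Gam_ne_zero (ω : P → ℕ) (U : Finset P) : Gam ω U ≠ 0 := by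
  classical
  intro h
  set f : P → ℕ := fun p => if p ∈ U then (Finset.univ.filter (fun q => q < p)).card else 0
    with hf
  have hmem : f ∈ Sol ω U (cnt U f) := by
    refine ⟨fun p hp => if_neg hp, fun a ha b hb hab => ?_, rfl⟩
    have h1 : f a < f b := by
      simp only [hf, if_pos ha, if_pos hb]
      apply Finset.card_lt_card
      rw [Finset.ssubset_iff_of_subset]
      · exact ⟨a, by simp [hab], by simp⟩
      · intro q hq
        rw [Finset.mem_filter] at hq ⊢
        exact ⟨hq.1, hq.2.trans hab⟩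
    exact ⟨h1.le, fun _ => h1⟩
  have h1 := coeff_Gam ω U (cnt U f)
  rw [h, map_zero] at h1
  have h2 : 0 < Nat.card (Sol ω U (cnt U f)) := by
    have : Nonempty (Sol ω U (cnt U f)) := ⟨⟨f, hmem⟩⟩
    exact Nat.card_pos
  have h3 : (0 : ℚ) < (Nat.card (Sol ω U (cnt U f)) : ℚ) := by exact_mod_cast h2
  linarith

theorem ext_mem {ω : P → ℕ} {U I : Finset P} {k : ℕ} {m : ℕ →₀ ℕ}
    (hI : Wk (fun a b : P => a < b) (fun p => (ω p : ℤ)) U I) (hIk : I.card = k)
    {f : P → ℕ} (hf : f ∈ Sol ω (U \ I) m) :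
    (fun p => if p ∈ U \ I then f p + 1 else 0) ∈ Sol ω U (sh k m) := by
  obtain ⟨hIU, hI⟩ := hI
  refine ⟨fun p hp => if_neg (fun h => hp (Finset.mem_sdiff.mp h).1), fun a ha b hb hab => ?_,
    ?_⟩
  · beta_reduce
    by_cases hbI : b ∈ I
    · obtain ⟨haI, hlt⟩ := hI a ha b hbI hab
      have hlt' : ω a < ω b := by
        beta_reduce at hlt
        exact_mod_cast hlt
      rw [if_neg (c := b ∈ U \ I) (by simp [hbI]), if_neg (c := a ∈ U \ I) (by simp [haI])]
      exact ⟨le_rfl, fun h => by omega⟩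
    · rw [if_pos (c := b ∈ U \ I) (Finset.mem_sdiff.mpr ⟨hb, hbI⟩)]
      by_cases haI : a ∈ I
      · rw [if_neg (c := a ∈ U \ I) (by simp [haI])]
        exact ⟨by omega, fun _ => by omega⟩
      · rw [if_pos (c := a ∈ U \ I) (Finset.mem_sdiff.mpr ⟨ha, haI⟩)]
        have := hf.2.1 a (Finset.mem_sdiff.mpr ⟨ha, haI⟩) b (Finset.mem_sdiff.mpr ⟨hb, hbI⟩) hab
        exact ⟨by omega, fun h => by have := this.2 h; omega⟩
  · ext i
    rw [cnt_apply]
    cases i with
    | zero =>
      rw [sh_zero, ← hIk]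
      congr 1
      ext p
      rw [Finset.mem_filter]
      constructor
      · rintro ⟨hp, h⟩
        by_contra hpI
        rw [if_pos (Finset.mem_sdiff.mpr ⟨hp, hpI⟩)] at h
        omega
      · intro hp
        exact ⟨hIU hp, if_neg (by simp [hp])⟩
    | succ i =>
      have hm := congrArg (fun q : ℕ →₀ ℕ => q i) hf.2.2
      beta_reduce at hm
      rw [sh_succ, ← hm, cnt_apply]
      congr 1
      ext p
      rw [Finset.mem_filter, Finset.mem_filter]
      constructor
      · rintro ⟨hp, h⟩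
        by_cases hpI : p ∈ U \ I
        · rw [if_pos hpI] at h
          exact ⟨hpI, by omega⟩
        · rw [if_neg hpI] at h
          omega
      · rintro ⟨hp, h⟩
        exact ⟨(Finset.mem_sdiff.mp hp).1, by rw [if_pos hp, h]⟩

theorem restr_mem {ω : P → ℕ} (hω : Function.Injective ω) {U : Finset P} {k : ℕ} {m : ℕ →₀ ℕ}
    {f : P → ℕ} (hf : f ∈ Sol ω U (sh k m)) :
    Wk (fun a b : P => a < b) (fun p => (ω p : ℤ)) U (U.filter (fun p => f p = 0)) ∧
      (U.filter (fun p => f p = 0)).card = k ∧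
      (fun p => f p - 1) ∈ Sol ω (U \ U.filter (fun p => f p = 0)) m := by
  refine ⟨⟨Finset.filter_subset _ _, fun a ha b hb hab => ?_⟩, ?_, fun p hp => ?_,
    fun a ha b hb hab => ?_, ?_⟩
  · rw [Finset.mem_filter] at hb ⊢
    have h1 := hf.2.1 a ha b hb.1 hab
    rw [hb.2] at h1
    refine ⟨⟨ha, by omega⟩, ?_⟩
    have h2 : ¬ (ω b < ω a) := fun h => by have := h1.2 h; omega
    have h3 : ω a ≠ ω b := fun h => (ne_of_lt hab) (hω h)
    have h4 : ω a < ω b := by omega
    beta_reduce
    exact_mod_cast h4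
  · have := cnt_apply U f 0
    rw [hf.2.2, sh_zero] at this
    exact this.symm
  · beta_reduce
    by_cases hpU : p ∈ U
    · have : p ∈ U.filter (fun p => f p = 0) := by
        by_contra h
        exact hp (Finset.mem_sdiff.mpr ⟨hpU, h⟩)
      rw [Finset.mem_filter] at this
      omega
    · rw [hf.1 p hpU]
  · beta_reduce
    rw [Finset.mem_sdiff, Finset.mem_filter] at ha hb
    have h1 := hf.2.1 a ha.1 b hb.1 hab
    have h2 : f a ≠ 0 := fun h => ha.2 ⟨ha.1, h⟩
    have h3 : f b ≠ 0 := fun h => hb.2 ⟨hb.1, h⟩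
    exact ⟨by omega, fun h => by have := h1.2 h; omega⟩
  · ext i
    have := cnt_apply U f (i + 1)
    rw [hf.2.2, sh_succ] at this
    rw [cnt_apply, this]
    congr 1
    ext p
    rw [Finset.mem_filter, Finset.mem_filter, Finset.mem_sdiff, Finset.mem_filter]
    constructor
    · rintro ⟨⟨h1, h2⟩, h3⟩
      have h4 : f p ≠ 0 := fun h => h2 ⟨h1, h⟩
      exact ⟨h1, by omega⟩
    · rintro ⟨h1, h2⟩
      exact ⟨⟨h1, fun h => by omega⟩, by omega⟩

/-- removing the smallest value -/
theorem card_split (ω : P → ℕ) (U : Finset P) (k : ℕ) (m : ℕ →₀ ℕ) (hω : Function.Injective ω) :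
    Nat.card (Sol ω U (sh k m)) =
      ∑ I ∈ (wks (fun a b : P => a < b) (fun p => (ω p : ℤ)) U) with I.card = k,
        Nat.card (Sol ω (U \ I) m) := by
  set T := (wks (fun a b : P => a < b) (fun p => (ω p : ℤ)) U).filter (fun I => I.card = k)
    with hT
  have hmemT : ∀ I : Finset P, I ∈ T ↔
      Wk (fun a b : P => a < b) (fun p => (ω p : ℤ)) U I ∧ I.card = k := by
    intro I
    rw [hT, Finset.mem_filter, mem_wks]
  clear_value T
  rw [← Finset.sum_coe_sort T (fun I => Nat.card (Sol ω (U \ I) m)), ← Nat.card_sigma]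
  symm
  refine Nat.card_congr (Equiv.ofBijective
    (fun x : (Σ I : T, Sol ω (U \ (I : Finset P)) m) =>
      (⟨fun p => if p ∈ U \ (x.1 : Finset P) then x.2.1 p + 1 else 0,
        ext_mem ((hmemT _).mp x.1.2).1 ((hmemT _).mp x.1.2).2 x.2.2⟩ :
        Sol ω U (sh k m))) ⟨?_, ?_⟩)
  · rintro ⟨⟨I, hI⟩, ⟨f, hf⟩⟩ ⟨⟨I', hI'⟩, ⟨f', hf'⟩⟩ h
    rw [Subtype.mk.injEq] at h
    dsimp only at h
    have hIU : I ⊆ U := ((hmemT _).mp hI).1.1
    have hIU' : I' ⊆ U := ((hmemT _).mp hI').1.1
    have hII : I = I' := by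
      ext p
      have hp := congrFun h p
      beta_reduce at hp
      constructor
      · intro hpI
        by_contra hpI'
        rw [if_neg (c := p ∈ U \ I) (by simp [hpI]),
          if_pos (Finset.mem_sdiff.mpr ⟨hIU hpI, hpI'⟩)] at hp
        omega
      · intro hpI'
        by_contra hpI
        rw [if_neg (c := p ∈ U \ I') (by simp [hpI']),
          if_pos (Finset.mem_sdiff.mpr ⟨hIU' hpI', hpI⟩)] at hp
        omega
    subst hII
    have hff : f = f' := by
      funext p
      by_cases hp : p ∈ U \ I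
      · have := congrFun h p
        simp only [if_pos hp] at this
        omega
      · rw [hf.1 p hp, hf'.1 p hp]
    subst hff
    rfl
  · rintro ⟨f, hf⟩
    obtain ⟨h1, h2, h3⟩ := restr_mem hω hf
    refine ⟨⟨⟨U.filter (fun p => f p = 0), (hmemT _).mpr ⟨h1, h2⟩⟩,
      ⟨fun p => f p - 1, h3⟩⟩, ?_⟩
    apply Subtype.ext
    funext p
    dsimp only
    by_cases hpU : p ∈ U
    · by_cases hp0 : f p = 0
      · rw [if_neg, hp0]
        rw [Finset.mem_sdiff, Finset.mem_filter]
        exact fun h => h.2 ⟨hpU, hp0⟩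
      · rw [if_pos]
        · omega
        · rw [Finset.mem_sdiff, Finset.mem_filter]
          exact ⟨hpU, fun h => hp0 h.2⟩
    · rw [if_neg, hf.1 p hpU]
      exact fun h => hpU (Finset.mem_sdiff.mp h).1

end Pool.Agent.Lib.MP_5bc52d_co
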