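import Mathlib
import Pool.Agent.Lib.MP_5bc52d_co.Gamma

/-!
# The splitting of quasisymmetric functions along the first variable
-/

open Finset

set_option linter.unusedSectionVars false

namespace Pool.Agent.Lib.MP_5bc52d_co

theorem C_isQS (q : ℚ) : IsQS (MvPowerSeries.C q : R) := by
  classical
  refine ⟨⟨0, fun m hm => ?_⟩, fun m g hg => ?_⟩
  · rw [MvPowerSeries.coeff_C, if_neg]
    rintro rfl
    simp at hm
  · rw [MvPowerSeries.coeff_C, MvPowerSeries.coeff_C]
    have : Finsupp.mapDomain g m = 0 ↔ m = 0 := by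
      constructor
      · intro h
        apply Finsupp.mapDomain_injective hg.injective
        rw [h, Finsupp.mapDomain_zero]
      · rintro rfl; exact Finsupp.mapDomain_zero
    simp only [this]

variable {Q : Subring R}

/-- a nonzero element without terms of positive degree is a unit -/
theorem isUnit_of_const (hQ : ∀ F : R, F ∈ Q ↔ IsQS F) (f : Q) (hf0 : f ≠ 0)
    (hf : ∀ m : ℕ →₀ ℕ, m ≠ 0 → MvPowerSeries.coeff m (f : R) = 0) : IsUnit f := by
  classical
  set q := MvPowerSeries.coeff 0 (f : R) with hq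
  have hfq : (f : R) = MvPowerSeries.C q := by
    ext m
    rw [MvPowerSeries.coeff_C]
    split_ifs with h
    · rw [h]
    · exact hf m h
  have hq0 : q ≠ 0 := by
    intro h
    apply hf0
    apply Subtype.ext
    rw [hfq, h, map_zero]; rfl
  refine IsUnit.of_mul_eq_one ⟨MvPowerSeries.C q⁻¹, (hQ _).mpr (C_isQS _)⟩ ?_
  apply Subtype.ext
  change (f : R) * MvPowerSeries.C q⁻¹ = 1
  rw [hfq, ← map_mul, mul_inv_cancel₀ hq0, map_one]

/-- degree bound -/
def DegLE (N : ℕ) (f : Q) : Prop :=
  ∀ m : ℕ →₀ ℕ, N < m.sum (fun _ e => e) → MvPowerSeries.coeff m (f : R) = 0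

/-- splitting off the first variable -/
noncomputable def bottom (hQ : ∀ F : R, F ∈ Q ↔ IsQS F) : Splitting Q where
  D := DegLE
  exists_D f := ((hQ _).mp f.2).1
  qp k f := ⟨part k f, (hQ _).mpr (part_isQS k ((hQ _).mp f.2))⟩
  qp_zero f := Subtype.ext (part_zero_eq ((hQ _).mp f.2))
  qp_one k hk := by
    apply Subtype.ext
    change part k 1 = 0
    rw [part_one, if_neg hk]
  qp_add k f g := Subtype.ext (part_add k f g)
  qp_mul k f g := by
    apply Subtype.ext
    rw [AddSubmonoidClass.coe_finsetSum]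
    exact part_mul k f g
  qp_vanish N k f hf hk := by
    apply Subtype.ext
    ext m
    change MvPowerSeries.coeff m (part k f) = MvPowerSeries.coeff m 0
    rw [coeff_part, hf _ (by rw [deg_sh]; omega)]
    simp
  qp_D N k f hf := by
    intro m hm
    change MvPowerSeries.coeff m (part k f) = 0
    rw [coeff_part, hf _ (by rw [deg_sh]; omega)]
  unit f hf0 hf := by
    apply isUnit_of_const hQ f hf0
    intro m hm
    by_contra hfm
    obtain ⟨k, hk, hpk⟩ := exists_part_ne_zero ((hQ _).mp f.2) m hm hfm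
    exact hpk (congrArg Subtype.val (hf k hk))

variable {P : Type*} [Fintype P] [DecidableEq P] [PartialOrder P]

/-- the generating function as an element of `Q` -/
noncomputable def GamQ (hQ : ∀ F : R, F ∈ Q ↔ IsQS F) (ω : P → ℕ) (U : Finset P) : Q :=
  ⟨Gam ω U, (hQ _).mpr (Gam_isQS ω U)⟩

theorem bottom_rec (hQ : ∀ F : R, F ∈ Q ↔ IsQS F) (ω : P → ℕ) (hω : Function.Injective ω)
    (U : Finset P) (k : ℕ) :
    (bottom hQ).qp k (GamQ hQ ω U) =
      ∑ I ∈ (wks (fun a b : P => a < b) (fun p => (ω p : ℤ)) U) with I.card = k,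
        GamQ hQ ω (U \ I) := by
  apply Subtype.ext
  rw [AddSubmonoidClass.coe_finsetSum]
  change part k (Gam ω U) = ∑ I ∈ _, Gam ω (U \ I)
  ext m
  rw [coeff_part, coeff_Gam, card_split ω U k m hω, map_sum]
  push_cast
  rfl

theorem irreducible_bottom (hQ : ∀ F : R, F ∈ Q ↔ IsQS F) (ω : P → ℕ)
    (hω : Function.Injective ω)
    (h : (∃! e, LocMin (fun a b : P => a < b) (fun p => (ω p : ℤ))
        (JJ (fun a b : P => a < b) (fun p => (ω p : ℤ))) e) ∨
      (∃! e, LocMin (fun a b : P => a < b) (-fun p => (ω p : ℤ))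
        (JJ (fun a b : P => a < b) (-fun p => (ω p : ℤ))) e)) :
    Irreducible (GamQ hQ ω (univ : Finset P)) := by
  have hω' : Function.Injective (fun p => (ω p : ℤ)) := fun a b h => hω (by simpa using h)
  have hne : ∀ U : Finset P, GamQ hQ ω U ≠ 0 := fun U h =>
    Gam_ne_zero ω U (congrArg Subtype.val h)
  have hD : IsDomain R := NoZeroDivisors.to_isDomain R
  have hD' : IsDomain Q := inferInstance
  have ht : ∀ x y z : P, (fun a b : P => a < b) x y → (fun a b : P => a < b) y z →
      (fun a b : P => a < b) x z := fun x y z h1 h2 => lt_trans h1 h2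
  have hi : ∀ x : P, ¬ (fun a b : P => a < b) x x := fun x => lt_irrefl x
  rcases h with h | h
  · exact irreducible₁ (bottom hQ) (GamQ hQ ω) ht hi hω' (bottom_rec hQ ω hω) hne h
  · exact irreducible₂ (bottom hQ) (GamQ hQ ω) ht hi hω' (bottom_rec hQ ω hω) hne h

end Pool.Agent.Lib.MP_5bc52d_co
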