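import Mathlib
import Pool.Agent.Lib.MP_5bc52d_co.Bottom

/-!
# The splitting of quasisymmetric functions along the last variable
-/

open Finset

set_option linter.unusedSectionVars false

namespace Pool.Agent.Lib.MP_5bc52d_co

/-- an index larger than the support -/
noncomputable def bd (m : ℕ →₀ ℕ) : ℕ := m.support.sup id + 1

theorem lt_bd {m : ℕ →₀ ℕ} {i : ℕ} (h : m i ≠ 0) : i < bd m := by
  have : i ≤ m.support.sup id := Finset.le_sup (f := id) (Finsupp.mem_support_iff.mpr h)
  rw [bd]; omega

theorem apply_bd_le {m : ℕ →₀ ℕ} {i : ℕ} (h : bd m ≤ i) : m i = 0 := by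
  by_contra hc
  have := lt_bd hc
  omega

theorem coeff_shift {F : R} (hF : IsQS F) (m : ℕ →₀ ℕ) (k N N' : ℕ) (hN : ∀ i, m i ≠ 0 → i < N)
    (hNN : N ≤ N') :
    MvPowerSeries.coeff (m + Finsupp.single N' k) F =
      MvPowerSeries.coeff (m + Finsupp.single N k) F := by
  set g : ℕ → ℕ := fun i => if i < N then i else i + (N' - N) with hg
  have hgm : StrictMono g := by
    intro a b hab
    simp only [hg]
    split_ifs <;> omega
  have h1 : Finsupp.mapDomain g (m + Finsupp.single N k) = m + Finsupp.single N' k := by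
    rw [Finsupp.mapDomain_add, Finsupp.mapDomain_single]
    congr 1
    · have : ∀ i ∈ m.support, g i = i := by
        intro i hi
        rw [Finsupp.mem_support_iff] at hi
        simp only [hg, if_pos (hN i hi)]
      rw [Finsupp.mapDomain_congr this]
      exact Finsupp.mapDomain_id
    · congr 1
      simp only [hg, lt_irrefl, if_false]
      omega
  rw [← h1]
  exact hF.2 _ g hgm

/-- quasisymmetric functions have a well defined coefficient for a new last variable -/
theorem coeff_last {F : R} (hF : IsQS F) (m : ℕ →₀ ℕ) (k N : ℕ) (hN : ∀ i, m i ≠ 0 → i < N) :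
    MvPowerSeries.coeff (m + Finsupp.single N k) F =
      MvPowerSeries.coeff (m + Finsupp.single (bd m) k) F := by
  rcases le_total (bd m) N with h | h
  · exact coeff_shift hF m k _ _ (fun i hi => lt_bd hi) h
  · exact (coeff_shift hF m k _ _ hN h).symm

/-- the coefficient of the `k`-th power of a new last variable -/
noncomputable def lpart (k : ℕ) (F : R) : R :=
  fun m => MvPowerSeries.coeff (m + Finsupp.single (bd m) k) F

theorem coeff_lpart (k : ℕ) (F : R) (m : ℕ →₀ ℕ) :
    MvPowerSeries.coeff m (lpart k F) =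
      MvPowerSeries.coeff (m + Finsupp.single (bd m) k) F := rfl

theorem coeff_lpart' {F : R} (hF : IsQS F) (k : ℕ) (m : ℕ →₀ ℕ) (N : ℕ)
    (hN : ∀ i, m i ≠ 0 → i < N) :
    MvPowerSeries.coeff m (lpart k F) = MvPowerSeries.coeff (m + Finsupp.single N k) F := by
  rw [coeff_lpart, coeff_last hF m k N hN]

theorem deg_last (m : ℕ →₀ ℕ) (N k : ℕ) :
    (m + Finsupp.single N k).sum (fun _ e => e) = m.sum (fun _ e => e) + k := by
  rw [Finsupp.sum_add_index' (by simp) (by simp), Finsupp.sum_single_index rfl]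

theorem bd_mono_add_left (a b : ℕ →₀ ℕ) : bd a ≤ bd (a + b) := by
  rw [bd, bd]
  have : a.support.sup id ≤ (a + b).support.sup id := by
    apply Finset.sup_mono
    intro i hi
    rw [Finsupp.mem_support_iff] at hi ⊢
    rw [Finsupp.add_apply]; omega
  omega

theorem bd_mono_add_right (a b : ℕ →₀ ℕ) : bd b ≤ bd (a + b) := by
  rw [add_comm]; exact bd_mono_add_left b a

theorem lpart_mul (k : ℕ) {F G : R} (hF : IsQS F) (hG : IsQS G) :
    lpart k (F * G) = ∑ p ∈ antidiagonal k, lpart p.1 F * lpart p.2 G := by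
  ext m
  rw [coeff_lpart, MvPowerSeries.coeff_mul, map_sum]
  simp only [MvPowerSeries.coeff_mul]
  rw [Finset.sum_sigma']
  set N := bd m with hN
  refine Finset.sum_bij' (fun p _ => ⟨(p.1 N, p.2 N), (p.1.erase N, p.2.erase N)⟩)
    (fun p _ => (p.2.1 + Finsupp.single N p.1.1, p.2.2 + Finsupp.single N p.1.2)) ?_ ?_ ?_ ?_ ?_
  · intro p hp
    rw [HasAntidiagonal.mem_antidiagonal] at hp
    rw [mem_sigma, HasAntidiagonal.mem_antidiagonal, HasAntidiagonal.mem_antidiagonal]
    refine ⟨?_, ?_⟩
    · have h0 : m N = 0 := apply_bd_le (le_of_eq hN.symm)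
      have := congrArg (fun q : ℕ →₀ ℕ => q N) hp
      simp only [Finsupp.add_apply, Finsupp.single_eq_same, h0] at this
      rw [this, zero_add]
    · ext i
      have := congrArg (fun q : ℕ →₀ ℕ => q i) hp
      simp only [Finsupp.add_apply] at this
      rw [Finsupp.add_apply]
      by_cases hi : i = N
      · subst hi
        simp only [Finsupp.erase_same, add_zero]
        exact (apply_bd_le le_rfl).symm
      · rw [Finsupp.erase_ne hi, Finsupp.erase_ne hi, this, Finsupp.single_apply,
          if_neg (Ne.symm hi), add_zero]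
  · intro p hp
    rw [mem_sigma, HasAntidiagonal.mem_antidiagonal, HasAntidiagonal.mem_antidiagonal] at hp
    rw [HasAntidiagonal.mem_antidiagonal]
    rw [← hp.1, ← hp.2, Finsupp.single_add]
    exact add_add_add_comm _ _ _ _
  · intro p _
    simp only [Finsupp.erase_add_single]
  · intro p hp
    rw [mem_sigma, HasAntidiagonal.mem_antidiagonal, HasAntidiagonal.mem_antidiagonal] at hp
    have h1 : p.2.1 N = 0 := apply_bd_le ((bd_mono_add_left p.2.1 p.2.2).trans (by rw [hp.2]))
    have h2 : p.2.2 N = 0 := apply_bd_le ((bd_mono_add_right p.2.1 p.2.2).trans (by rw [hp.2]))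
    obtain ⟨⟨i, j⟩, ⟨a, b⟩⟩ := p
    simp only at h1 h2 ⊢
    simp only [Finsupp.add_apply, Finsupp.single_eq_same, h1, h2, zero_add,
      Finsupp.erase_add, Finsupp.erase_single, add_zero]
    rw [Finsupp.erase_of_notMem_support (by simpa using h1),
      Finsupp.erase_of_notMem_support (by simpa using h2)]
  · intro p hp
    rw [HasAntidiagonal.mem_antidiagonal] at hp
    have h1 : ∀ i, (p.1.erase N) i ≠ 0 → i < N := by
      have h3 : p.1.erase N + p.2.erase N = m := by
        ext i
        have := congrArg (fun q : ℕ →₀ ℕ => q i) hp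
        simp only [Finsupp.add_apply] at this
        rw [Finsupp.add_apply]
        by_cases hi : i = N
        · subst hi
          simp only [Finsupp.erase_same, add_zero]
          exact (apply_bd_le le_rfl).symm
        · rw [Finsupp.erase_ne hi, Finsupp.erase_ne hi, this, Finsupp.single_apply,
            if_neg (Ne.symm hi), add_zero]
      intro i hi
      apply lt_bd
      rw [← h3, Finsupp.add_apply]
      omega
    have h2 : ∀ i, (p.2.erase N) i ≠ 0 → i < N := by
      have h3 : p.1.erase N + p.2.erase N = m := by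
        ext i
        have := congrArg (fun q : ℕ →₀ ℕ => q i) hp
        simp only [Finsupp.add_apply] at this
        rw [Finsupp.add_apply]
        by_cases hi : i = N
        · subst hi
          simp only [Finsupp.erase_same, add_zero]
          exact (apply_bd_le le_rfl).symm
        · rw [Finsupp.erase_ne hi, Finsupp.erase_ne hi, this, Finsupp.single_apply,
            if_neg (Ne.symm hi), add_zero]
      intro i hi
      apply lt_bd
      rw [← h3, Finsupp.add_apply]
      omega
    simp only
    rw [coeff_lpart' hF _ _ N h1, coeff_lpart' hG _ _ N h2, Finsupp.erase_add_single,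
      Finsupp.erase_add_single]

theorem lpart_isQS (k : ℕ) {F : R} (hF : IsQS F) : IsQS (lpart k F) := by
  obtain ⟨⟨N, hN⟩, hg⟩ := id hF
  refine ⟨⟨N, fun m hm => ?_⟩, fun m g hgm => ?_⟩
  · rw [coeff_lpart]
    exact hN _ (by rw [deg_last]; omega)
  · have h1 : ∀ i, (Finsupp.mapDomain g m) i ≠ 0 → i < g (bd m) := by
      intro i hi
      have h2 := Finsupp.mapDomain_support (Finsupp.mem_support_iff.mpr hi)
      rw [Finset.mem_image] at h2
      obtain ⟨j, hj, rfl⟩ := h2
      exact hgm (lt_bd (Finsupp.mem_support_iff.mp hj))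
    rw [coeff_lpart' hF k _ _ h1, coeff_lpart]
    have : Finsupp.mapDomain g m + Finsupp.single (g (bd m)) k =
        Finsupp.mapDomain g (m + Finsupp.single (bd m) k) := by
      rw [Finsupp.mapDomain_add, Finsupp.mapDomain_single]
    rw [this]
    exact hg _ g hgm

theorem exists_lpart_ne_zero {F : R} (hF : IsQS F) (m : ℕ →₀ ℕ) (hm : m ≠ 0)
    (hFm : MvPowerSeries.coeff m F ≠ 0) : ∃ k, 1 ≤ k ∧ lpart k F ≠ 0 := by
  have hne : m.support.Nonempty := by
    rw [Finset.nonempty_iff_ne_empty]
    intro h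
    exact hm (Finsupp.support_eq_empty.mp h)
  set i₀ := m.support.max' hne with hi₀
  have hmem := m.support.max'_mem hne
  rw [← hi₀, Finsupp.mem_support_iff] at hmem
  refine ⟨m i₀, Nat.one_le_iff_ne_zero.mpr hmem, fun h0 => hFm ?_⟩
  have hb : ∀ i, (m.erase i₀) i ≠ 0 → i < i₀ := by
    intro i hi
    rw [← Finsupp.mem_support_iff, Finsupp.support_erase, Finset.mem_erase] at hi
    exact lt_of_le_of_ne (m.support.le_max' i hi.2) hi.1
  rw [← Finsupp.erase_add_single i₀ m, ← coeff_lpart' hF _ _ _ hb, h0, map_zero]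

theorem lpart_add (k : ℕ) (F G : R) : lpart k (F + G) = lpart k F + lpart k G := by
  ext m; simp [coeff_lpart]

theorem lpart_one {k : ℕ} (hk : k ≠ 0) : lpart k (1 : R) = 0 := by
  classical
  ext m
  rw [coeff_lpart, MvPowerSeries.coeff_one, if_neg]
  · simp
  · intro h
    have h1 := congrArg (fun q : ℕ →₀ ℕ => q (bd m)) h
    simp only [Finsupp.add_apply, Finsupp.single_eq_same, Finsupp.coe_zero, Pi.zero_apply] at h1
    omega

theorem lpart_zero_eq (F : R) : lpart 0 F = F := by
  ext m
  rw [coeff_lpart, Finsupp.single_zero, add_zero]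

variable {Q : Subring R}

/-- splitting off the last variable -/
noncomputable def top (hQ : ∀ F : R, F ∈ Q ↔ IsQS F) : Splitting Q where
  D := DegLE
  exists_D f := ((hQ _).mp f.2).1
  qp k f := ⟨lpart k f, (hQ _).mpr (lpart_isQS k ((hQ _).mp f.2))⟩
  qp_zero f := Subtype.ext (lpart_zero_eq _)
  qp_one k hk := Subtype.ext (lpart_one hk)
  qp_add k f g := Subtype.ext (lpart_add k f g)
  qp_mul k f g := by
    apply Subtype.ext
    rw [AddSubmonoidClass.coe_finsetSum]
    exact lpart_mul k ((hQ _).mp f.2) ((hQ _).mp g.2)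
  qp_vanish N k f hf hk := by
    apply Subtype.ext
    ext m
    change MvPowerSeries.coeff m (lpart k f) = MvPowerSeries.coeff m 0
    rw [coeff_lpart, hf _ (by rw [deg_last]; omega)]
    simp
  qp_D N k f hf := by
    intro m hm
    change MvPowerSeries.coeff m (lpart k f) = 0
    rw [coeff_lpart, hf _ (by rw [deg_last]; omega)]
  unit f hf0 hf := by
    apply isUnit_of_const hQ f hf0
    intro m hm
    by_contra hfm
    obtain ⟨k, hk, hpk⟩ := exists_lpart_ne_zero ((hQ _).mp f.2) m hm hfm
    exact hpk (congrArg Subtype.val (hf k hk))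

variable {P : Type*} [Fintype P] [DecidableEq P] [PartialOrder P]

theorem ext_mem' {ω : P → ℕ} {U F : Finset P} {k N : ℕ} {m : ℕ →₀ ℕ}
    (hN : ∀ i, m i ≠ 0 → i < N)
    (hI : Wk (fun a b : P => b < a) (fun p => -(ω p : ℤ)) U F) (hIk : F.card = k)
    {f : P → ℕ} (hf : f ∈ Sol ω (U \ F) m) :
    (fun p => if p ∈ U \ F then f p else if p ∈ F then N else 0) ∈
      Sol ω U (m + Finsupp.single N k) := by
  obtain ⟨hIU, hI⟩ := hI
  have hlt : ∀ p ∈ U \ F, f p < N := by
    intro p hp
    apply hN
    rw [← hf.2.2, ← Finsupp.mem_support_iff]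
    exact mem_support_cnt hp
  refine ⟨fun p hp => ?_, fun a ha b hb hab => ?_, ?_⟩
  · beta_reduce
    rw [if_neg (fun h => hp (Finset.mem_sdiff.mp h).1), if_neg (fun h => hp (hIU h))]
  · beta_reduce
    by_cases haF : a ∈ F
    · obtain ⟨hbF, hlt'⟩ := hI b hb a haF hab
      beta_reduce at hlt'
      have hab' : ω a < ω b := by omega
      rw [if_neg (c := b ∈ U \ F) (by simp [hbF]), if_neg (c := a ∈ U \ F) (by simp [haF]),
        if_pos haF, if_pos hbF]
      exact ⟨le_rfl, fun h => by omega⟩
    · have haU : a ∈ U \ F := Finset.mem_sdiff.mpr ⟨ha, haF⟩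
      have h1 := hlt a haU
      rw [if_pos haU]
      by_cases hbF : b ∈ F
      · rw [if_neg (c := b ∈ U \ F) (by simp [hbF]), if_pos hbF]
        exact ⟨h1.le, fun _ => h1⟩
      · have hbU : b ∈ U \ F := Finset.mem_sdiff.mpr ⟨hb, hbF⟩
        rw [if_pos hbU]
        exact hf.2.1 a haU b hbU hab
  · ext i
    rw [cnt_apply, Finsupp.add_apply]
    by_cases hi : i = N
    · subst hi
      have h0 : m i = 0 := by
        by_contra h
        exact absurd (hN i h) (lt_irrefl i)
      rw [h0, Finsupp.single_eq_same, zero_add, ← hIk]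
      congr 1
      ext p
      rw [Finset.mem_filter]
      constructor
      · rintro ⟨hp, h⟩
        by_contra hpF
        have hpU : p ∈ U \ F := Finset.mem_sdiff.mpr ⟨hp, hpF⟩
        rw [if_pos hpU] at h
        have := hlt p hpU
        omega
      · intro hp
        exact ⟨hIU hp, by rw [if_neg (by simp [hp]), if_pos hp]⟩
    · rw [Finsupp.single_apply, if_neg (Ne.symm hi), add_zero, ← hf.2.2, cnt_apply]
      congr 1
      ext p
      rw [Finset.mem_filter, Finset.mem_filter]
      constructor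
      · rintro ⟨hp, h⟩
        by_cases hpF : p ∈ F
        · rw [if_neg (by simp [hpF]), if_pos hpF] at h
          exact absurd h.symm hi
        · have hpU : p ∈ U \ F := Finset.mem_sdiff.mpr ⟨hp, hpF⟩
          rw [if_pos hpU] at h
          exact ⟨hpU, h⟩
      · rintro ⟨hp, h⟩
        exact ⟨(Finset.mem_sdiff.mp hp).1, by rw [if_pos hp, h]⟩

theorem restr_mem' {ω : P → ℕ} (hω : Function.Injective ω) {U : Finset P} {k N : ℕ}
    {m : ℕ →₀ ℕ} (hN : ∀ i, m i ≠ 0 → i < N)
    {f : P → ℕ} (hf : f ∈ Sol ω U (m + Finsupp.single N k)) :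
    Wk (fun a b : P => b < a) (fun p => -(ω p : ℤ)) U (U.filter (fun p => f p = N)) ∧
      (U.filter (fun p => f p = N)).card = k ∧
      (fun p => if p ∈ U \ U.filter (fun p => f p = N) then f p else 0) ∈
        Sol ω (U \ U.filter (fun p => f p = N)) m := by
  have h0 : m N = 0 := by
    by_contra h
    exact absurd (hN N h) (lt_irrefl N)
  have hle : ∀ p ∈ U, f p ≤ N := by
    intro p hp
    have h1 := mem_support_cnt (f := f) hp
    rw [hf.2.2, Finsupp.mem_support_iff, Finsupp.add_apply, Finsupp.single_apply] at h1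
    by_cases h : N = f p
    · exact h.symm.le
    · rw [if_neg h, add_zero] at h1
      exact (hN _ h1).le
  refine ⟨⟨Finset.filter_subset _ _, fun a ha b hb hab => ?_⟩, ?_, fun p hp => if_neg hp,
    fun a ha b hb hab => ?_, ?_⟩
  · rw [Finset.mem_filter] at hb ⊢
    have h1 := hf.2.1 b hb.1 a ha hab
    rw [hb.2] at h1
    have h5 := hle a ha
    refine ⟨⟨ha, by omega⟩, ?_⟩
    have h2 : ¬ (ω a < ω b) := fun h => by have := h1.2 h; omega
    have h3 : ω b ≠ ω a := fun h => (ne_of_lt hab) (hω h)
    beta_reduce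
    omega
  · have := cnt_apply U f N
    rw [hf.2.2, Finsupp.add_apply, h0, Finsupp.single_eq_same, zero_add] at this
    exact this.symm
  · beta_reduce
    rw [if_pos ha, if_pos hb]
    exact hf.2.1 a (Finset.mem_sdiff.mp ha).1 b (Finset.mem_sdiff.mp hb).1 hab
  · ext i
    have := cnt_apply U f i
    rw [hf.2.2, Finsupp.add_apply, Finsupp.single_apply] at this
    rw [cnt_apply]
    by_cases hi : N = i
    · subst hi
      rw [h0, Finset.card_eq_zero, Finset.filter_eq_empty_iff]
      intro p hp
      rw [if_pos hp]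
      rw [Finset.mem_sdiff, Finset.mem_filter] at hp
      exact fun h => hp.2 ⟨hp.1, h⟩
    · rw [if_neg hi, add_zero] at this
      rw [this]
      congr 1
      ext p
      rw [Finset.mem_filter, Finset.mem_filter]
      constructor
      · rintro ⟨h1, h2⟩
        rw [if_pos h1] at h2
        exact ⟨(Finset.mem_sdiff.mp h1).1, h2⟩
      · rintro ⟨h1, h2⟩
        have h3 : p ∈ U \ U.filter (fun p => f p = N) := by
          rw [Finset.mem_sdiff, Finset.mem_filter]
          exact ⟨h1, fun h => hi (by rw [← h2, h.2])⟩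
        exact ⟨h3, by rw [if_pos h3, h2]⟩

/-- removing the largest value -/
theorem card_split' (ω : P → ℕ) (U : Finset P) (k N : ℕ) (m : ℕ →₀ ℕ)
    (hN : ∀ i, m i ≠ 0 → i < N) (hω : Function.Injective ω) :
    Nat.card (Sol ω U (m + Finsupp.single N k)) =
      ∑ F ∈ (wks (fun a b : P => b < a) (fun p => -(ω p : ℤ)) U) with F.card = k,
        Nat.card (Sol ω (U \ F) m) := by
  set T := (wks (fun a b : P => b < a) (fun p => -(ω p : ℤ)) U).filter (fun F => F.card = k)
    with hT
  have hmemT : ∀ F : Finset P, F ∈ T ↔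
      Wk (fun a b : P => b < a) (fun p => -(ω p : ℤ)) U F ∧ F.card = k := by
    intro F
    rw [hT, Finset.mem_filter, mem_wks]
  clear_value T
  have hlt : ∀ (F : Finset P) (f : P → ℕ), f ∈ Sol ω (U \ F) m → ∀ p ∈ U \ F, f p < N := by
    intro F f hf p hp
    apply hN
    rw [← hf.2.2, ← Finsupp.mem_support_iff]
    exact mem_support_cnt hp
  rw [← Finset.sum_coe_sort T (fun F => Nat.card (Sol ω (U \ F) m)), ← Nat.card_sigma]
  symm
  refine Nat.card_congr (Equiv.ofBijective
    (fun x : (Σ F : T, Sol ω (U \ (F : Finset P)) m) =>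
      (⟨fun p => if p ∈ U \ (x.1 : Finset P) then x.2.1 p else
          if p ∈ (x.1 : Finset P) then N else 0,
        ext_mem' hN ((hmemT _).mp x.1.2).1 ((hmemT _).mp x.1.2).2 x.2.2⟩ :
        Sol ω U (m + Finsupp.single N k))) ⟨?_, ?_⟩)
  · rintro ⟨⟨I, hI⟩, ⟨f, hf⟩⟩ ⟨⟨I', hI'⟩, ⟨f', hf'⟩⟩ h
    rw [Subtype.mk.injEq] at h
    dsimp only at h
    have hIU : I ⊆ U := ((hmemT _).mp hI).1.1
    have hIU' : I' ⊆ U := ((hmemT _).mp hI').1.1
    have hII : I = I' := by
      ext p
      have hp := congrFun h p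
      beta_reduce at hp
      constructor
      · intro hpI
        by_contra hpI'
        have hpU : p ∈ U \ I' := Finset.mem_sdiff.mpr ⟨hIU hpI, hpI'⟩
        rw [if_neg (c := p ∈ U \ I) (by simp [hpI]), if_pos hpI, if_pos hpU] at hp
        have := hlt I' f' hf' p hpU
        omega
      · intro hpI'
        by_contra hpI
        have hpU : p ∈ U \ I := Finset.mem_sdiff.mpr ⟨hIU' hpI', hpI⟩
        rw [if_neg (c := p ∈ U \ I') (by simp [hpI']), if_pos hpI', if_pos hpU] at hp
        have := hlt I f hf p hpU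
        omega
    subst hII
    have hff : f = f' := by
      funext p
      by_cases hp : p ∈ U \ I
      · have := congrFun h p
        simp only [if_pos hp] at this
        exact this
      · rw [hf.1 p hp, hf'.1 p hp]
    subst hff
    rfl
  · rintro ⟨f, hf⟩
    obtain ⟨h1, h2, h3⟩ := restr_mem' hω hN hf
    refine ⟨⟨⟨U.filter (fun p => f p = N), (hmemT _).mpr ⟨h1, h2⟩⟩,
      ⟨fun p => if p ∈ U \ U.filter (fun p => f p = N) then f p else 0, h3⟩⟩, ?_⟩
    apply Subtype.ext
    funext p
    dsimp only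
    by_cases hpU : p ∈ U
    · by_cases hp0 : f p = N
      · have hpF : p ∈ U.filter (fun p => f p = N) := Finset.mem_filter.mpr ⟨hpU, hp0⟩
        rw [if_neg (fun h => (Finset.mem_sdiff.mp h).2 hpF), if_pos hpF, hp0]
      · have hpF : p ∈ U \ U.filter (fun p => f p = N) := by
          rw [Finset.mem_sdiff, Finset.mem_filter]
          exact ⟨hpU, fun h => hp0 h.2⟩
        rw [if_pos hpF, if_pos hpF]
    · rw [if_neg (fun h => hpU (Finset.mem_sdiff.mp h).1),
        if_neg (fun h => hpU (Finset.mem_filter.mp h).1), hf.1 p hpU]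

theorem top_rec (hQ : ∀ F : R, F ∈ Q ↔ IsQS F) (ω : P → ℕ) (hω : Function.Injective ω)
    (U : Finset P) (k : ℕ) :
    (top hQ).qp k (GamQ hQ ω U) =
      ∑ I ∈ (wks (fun a b : P => b < a) (fun p => -(ω p : ℤ)) U) with I.card = k,
        GamQ hQ ω (U \ I) := by
  apply Subtype.ext
  rw [AddSubmonoidClass.coe_finsetSum]
  change lpart k (Gam ω U) = ∑ I ∈ _, Gam ω (U \ I)
  ext m
  rw [coeff_lpart, coeff_Gam, card_split' ω U k (bd m) m (fun i hi => lt_bd hi) hω, map_sum]
  push_cast
  rfl

theorem irreducible_top (hQ : ∀ F : R, F ∈ Q ↔ IsQS F) (ω : P → ℕ)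
    (hω : Function.Injective ω)
    (h : (∃! e, LocMin (fun a b : P => b < a) (fun p => -(ω p : ℤ))
        (JJ (fun a b : P => b < a) (fun p => -(ω p : ℤ))) e) ∨
      (∃! e, LocMin (fun a b : P => b < a) (-fun p => -(ω p : ℤ))
        (JJ (fun a b : P => b < a) (-fun p => -(ω p : ℤ))) e)) :
    Irreducible (GamQ hQ ω (univ : Finset P)) := by
  have hω' : Function.Injective (fun p => -(ω p : ℤ)) := fun a b h => hω (by simpa using h)
  have hne : ∀ U : Finset P, GamQ hQ ω U ≠ 0 := fun U h =>
    Gam_ne_zero ω U (congrArg Subtype.val h)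
  have hD : IsDomain R := NoZeroDivisors.to_isDomain R
  have hD' : IsDomain Q := inferInstance
  have ht : ∀ x y z : P, (fun a b : P => b < a) x y → (fun a b : P => b < a) y z →
      (fun a b : P => b < a) x z := fun x y z h1 h2 => lt_trans h2 h1
  have hi : ∀ x : P, ¬ (fun a b : P => b < a) x x := fun x => lt_irrefl x
  rcases h with h | h
  · exact irreducible₁ (top hQ) (GamQ hQ ω) ht hi hω' (top_rec hQ ω hω) hne h
  · exact irreducible₂ (top hQ) (GamQ hQ ω) ht hi hω' (top_rec hQ ω hω) hne h

end Pool.Agent.Lib.MP_5bc52d_co
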